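import Mathlib

/-!
# Chief series of p-groups as valuations with leading coefficients
-/

set_option autoImplicit false

namespace Pool.Agent.TH603.Univ

universe u

/-- The axioms of a chief series (all factors central and cyclic of order `p`) on the subgroup `H`:
`ν g` is the place of the factor in which `g` lives, and `θ g` is the image of `g` in that
factor. -/
structure ValOn {G : Type u} [Group G] {Λ : Type*} [LinearOrder Λ] (p : ℕ) (H : Subgroup G)
    (ν : G → Λ) (θ : G → ZMod p) : Prop where
  ne : ∀ g ∈ H, g ≠ 1 → θ g ≠ 0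
  conj_ν : ∀ g ∈ H, ∀ h ∈ H, ν (h⁻¹ * g * h) = ν g
  conj_θ : ∀ g ∈ H, ∀ h ∈ H, θ (h⁻¹ * g * h) = θ g
  mul_lt : ∀ g ∈ H, ∀ h ∈ H, g ≠ 1 → h ≠ 1 → ν g < ν h →
    g * h ≠ 1 ∧ ν (g * h) = ν g ∧ θ (g * h) = θ g
  mul_gt : ∀ g ∈ H, ∀ h ∈ H, g ≠ 1 → h ≠ 1 → ν h < ν g →
    g * h ≠ 1 ∧ ν (g * h) = ν h ∧ θ (g * h) = θ h
  mul_eq : ∀ g ∈ H, ∀ h ∈ H, g ≠ 1 → h ≠ 1 → ν g = ν h → θ g + θ h ≠ 0 →
    g * h ≠ 1 ∧ ν (g * h) = ν g ∧ θ (g * h) = θ g + θ h
  mul_eq' : ∀ g ∈ H, ∀ h ∈ H, g ≠ 1 → h ≠ 1 → ν g = ν h → θ g + θ h = 0 →
    g * h = 1 ∨ ν g < ν (g * h)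

/-- A finite `p`-group has a chief series with the properties above. -/
theorem exists_val_finite (p : ℕ) [hp : Fact p.Prime] : ∀ (n : ℕ) (G : Type u) [Group G]
    [Finite G], Nat.card G = p ^ n →
    ∃ (ν : G → ℕ) (θ : G → ZMod p), (∀ g, g ≠ 1 → ν g < n) ∧ ValOn p (⊤ : Subgroup G) ν θ := by
  intro n
  induction n with
  | zero =>
    intro G _ _ hG
    have hs : Subsingleton G := by
      rw [pow_zero] at hG
      exact (Nat.card_eq_one_iff_unique.1 hG).1
    refine ⟨fun _ => 0, fun _ => 0, fun g hg => absurd (Subsingleton.elim g 1) hg, ?_⟩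
    constructor
    · intro g _ hg
      exact absurd (Subsingleton.elim g 1) hg
    · intros; rfl
    · intros; rfl
    · intro g _ h _ hg
      exact absurd (Subsingleton.elim g 1) hg
    · intro g _ h _ hg
      exact absurd (Subsingleton.elim g 1) hg
    · intro g _ h _ hg
      exact absurd (Subsingleton.elim g 1) hg
    · intro g _ h _ hg
      exact absurd (Subsingleton.elim g 1) hg
  | succ n ih =>
    intro G _ _ hG
    classical
    have hpG : IsPGroup p G := IsPGroup.of_card hG
    have hnt : Nontrivial G := by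
      rw [← Finite.one_lt_card_iff_nontrivial, hG]
      exact Nat.one_lt_pow (Nat.succ_ne_zero n) hp.out.one_lt
    -- a central element of order `p`
    have hZ : Nontrivial (Subgroup.center G) := hpG.center_nontrivial
    obtain ⟨z, hz⟩ : ∃ z : Subgroup.center G, orderOf z = p := by
      have hpZ : IsPGroup p (Subgroup.center G) := hpG.to_subgroup _
      obtain ⟨k, hk⟩ := IsPGroup.iff_card.1 hpZ
      have hk0 : k ≠ 0 := by
        rintro rfl
        rw [pow_zero] at hk
        have := (Nat.card_eq_one_iff_unique.1 hk).1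
        exact not_subsingleton _ this
      exact exists_prime_orderOf_dvd_card' p (hk ▸ dvd_pow_self p hk0)
    let N : Subgroup G := Subgroup.zpowers (z : G)
    have hzo : orderOf (z : G) = p := by rw [← hz]; exact Subgroup.orderOf_coe z
    have hNn : N.Normal := by
      constructor
      intro m hm g
      obtain ⟨k, rfl⟩ := Subgroup.mem_zpowers_iff.1 hm
      have hc : g * (z : G) ^ k * g⁻¹ = (z : G) ^ k := by
        have h1 : (z : G) ^ k ∈ Subgroup.center G := Subgroup.zpow_mem _ z.2 k
        rw [Subgroup.mem_center_iff.1 h1 g]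
        group
      rw [hc]
      exact Subgroup.zpow_mem _ (Subgroup.mem_zpowers _) k
    have hNc : ∀ m ∈ N, ∀ g : G, g * m = m * g := by
      intro m hm g
      obtain ⟨k, rfl⟩ := Subgroup.mem_zpowers_iff.1 hm
      have h1 : (z : G) ^ k ∈ Subgroup.center G := Subgroup.zpow_mem _ z.2 k
      exact Subgroup.mem_center_iff.1 h1 g
    have hcard : Nat.card (G ⧸ N) = p ^ n := by
      have h1 := Subgroup.card_eq_card_quotient_mul_card_subgroup N
      have h2 : Nat.card N = p := by rw [← hzo]; exact Nat.card_zpowers _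
      rw [h2, hG, pow_succ] at h1
      exact (Nat.eq_of_mul_eq_mul_right hp.out.pos h1).symm
    obtain ⟨ν', θ', hlt, hV⟩ := ih (G ⧸ N) hcard
    -- the coordinate on `N`
    have hker : ∀ g : G, g ∈ N → ∃ k : ℤ, (z : G) ^ k = g := fun g hg =>
      Subgroup.mem_zpowers_iff.1 hg
    choose! κ hκ using hker
    have hκ' : ∀ k l : ℤ, (z : G) ^ k = (z : G) ^ l ↔ (k : ZMod p) = (l : ZMod p) := by
      intro k l
      rw [zpow_eq_zpow_iff_modEq, hzo, ← ZMod.intCast_eq_intCast_iff]
    have hκmul : ∀ g ∈ N, ∀ h ∈ N, ((κ (g * h) : ℤ) : ZMod p) = (κ g : ZMod p) + (κ h : ZMod p) := by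
      intro g hg h hh
      rw [← Int.cast_add, ← hκ', hκ _ (N.mul_mem hg hh), zpow_add, hκ _ hg, hκ _ hh]
    have hκ0 : ∀ g ∈ N, g ≠ 1 → ((κ g : ℤ) : ZMod p) ≠ 0 := by
      intro g hg hne h0
      apply hne
      rw [← hκ _ hg]
      have := (hκ' (κ g) 0).2 (by simpa using h0)
      simpa using this
    let π : G → G ⧸ N := fun g => (QuotientGroup.mk g : G ⧸ N)
    have hπmul : ∀ g h : G, π (g * h) = π g * π h := fun g h => rfl
    have hπ1 : ∀ g : G, π g = 1 ↔ g ∈ N := fun g => QuotientGroup.eq_one_iff g
    refine ⟨fun g => if g ∈ N then n else ν' (π g),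
      fun g => if g ∈ N then (κ g : ZMod p) else θ' (π g), ?_, ?_⟩
    · intro g _
      by_cases hg : g ∈ N
      · simp [hg]
      · simp only [hg, if_false]
        exact (hlt _ (fun h => hg ((hπ1 g).1 h))).trans (Nat.lt_succ_self n)
    have hinN : ∀ g h : G, g ∈ N → (g * h ∈ N ↔ h ∈ N) := fun g h hg => N.mul_mem_cancel_left hg
    have hinN' : ∀ g h : G, h ∈ N → (g * h ∈ N ↔ g ∈ N) := fun g h hg => N.mul_mem_cancel_right hg
    have hπl : ∀ g h : G, g ∈ N → π (g * h) = π h := by
      intro g h hg
      rw [hπmul, (hπ1 g).2 hg, one_mul]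
    have hπr : ∀ g h : G, h ∈ N → π (g * h) = π g := by
      intro g h hg
      rw [hπmul, (hπ1 h).2 hg, mul_one]
    have hconjN : ∀ g h : G, (h⁻¹ * g * h ∈ N ↔ g ∈ N) := by
      intro g h
      constructor
      · intro h1
        have := hNn.conj_mem _ h1 h
        simpa [mul_assoc] using this
      · intro h1
        have := hNn.conj_mem _ h1 h⁻¹
        simpa using this
    have hconjeq : ∀ g h : G, g ∈ N → h⁻¹ * g * h = g := by
      intro g h hg
      rw [hNc g hg h⁻¹]
      group
    have hlt' : ∀ g : G, g ∉ N → ν' (π g) < n := fun g hg => hlt _ fun h => hg ((hπ1 g).1 h)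
    have hne' : ∀ g : G, g ∉ N → π g ≠ 1 := fun g hg h => hg ((hπ1 g).1 h)
    constructor
    · intro g _ hne
      by_cases hg : g ∈ N
      · simpa [hg] using hκ0 g hg hne
      · simpa [hg] using hV.ne _ trivial (hne' g hg)
    · intro g _ h _
      by_cases hg : g ∈ N
      · rw [hconjeq g h hg]
      · have hg' : h⁻¹ * g * h ∉ N := fun h1 => hg ((hconjN g h).1 h1)
        simp only [hg, hg', if_false]
        exact hV.conj_ν (π g) trivial (π h) trivial
    · intro g _ h _
      by_cases hg : g ∈ N
      · rw [hconjeq g h hg]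
      · have hg' : h⁻¹ * g * h ∉ N := fun h1 => hg ((hconjN g h).1 h1)
        simp only [hg, hg', if_false]
        exact hV.conj_θ (π g) trivial (π h) trivial
    · intro g _ h _ hg1 hh1 hν
      by_cases hg : g ∈ N
      · exfalso
        by_cases hh : h ∈ N
        · simp [hg, hh] at hν
        · simp only [hg, hh, if_true, if_false] at hν
          exact absurd (hlt' h hh) (by omega)
      · by_cases hh : h ∈ N
        · have hgh : g * h ∉ N := fun h1 => hg ((hinN' g h hh).1 h1)
          refine ⟨fun h1 => hgh (h1 ▸ N.one_mem), ?_, ?_⟩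
          · simp only [hgh, hg, if_false, hπr g h hh]
          · simp only [hgh, hg, if_false, hπr g h hh]
        · simp only [hg, hh, if_false] at hν
          obtain ⟨h1, h2, h3⟩ := hV.mul_lt (π g) trivial (π h) trivial (hne' g hg) (hne' h hh) hν
          have hgh : g * h ∉ N := fun h1' => h1 ((hπ1 _).2 h1')
          refine ⟨fun h1 => hgh (h1 ▸ N.one_mem), ?_, ?_⟩
          · simp only [hgh, hg, if_false]; exact h2
          · simp only [hgh, hg, if_false]; exact h3
    · intro g _ h _ hg1 hh1 hν
      by_cases hh : h ∈ N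
      · exfalso
        by_cases hg : g ∈ N
        · simp [hg, hh] at hν
        · simp only [hg, hh, if_true, if_false] at hν
          exact absurd (hlt' g hg) (by omega)
      · by_cases hg : g ∈ N
        · have hgh : g * h ∉ N := fun h1 => hh ((hinN g h hg).1 h1)
          refine ⟨fun h1 => hgh (h1 ▸ N.one_mem), ?_, ?_⟩
          · simp only [hgh, hh, if_false, hπl g h hg]
          · simp only [hgh, hh, if_false, hπl g h hg]
        · simp only [hg, hh, if_false] at hν
          obtain ⟨h1, h2, h3⟩ := hV.mul_gt (π g) trivial (π h) trivial (hne' g hg) (hne' h hh) hν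
          have hgh : g * h ∉ N := fun h1' => h1 ((hπ1 _).2 h1')
          refine ⟨fun h1 => hgh (h1 ▸ N.one_mem), ?_, ?_⟩
          · simp only [hgh, hh, if_false]; exact h2
          · simp only [hgh, hh, if_false]; exact h3
    · intro g _ h _ hg1 hh1 hν hθ
      by_cases hg : g ∈ N
      · by_cases hh : h ∈ N
        · have hgh : g * h ∈ N := N.mul_mem hg hh
          simp only [hg, hh, if_true] at hθ
          have h1 : ((κ (g * h) : ℤ) : ZMod p) ≠ 0 := by rwa [hκmul g hg h hh]
          refine ⟨?_, by simp [hgh, hg], ?_⟩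
          · intro h2
            apply h1
            rw [h2]
            have := (hκ' (κ 1) 0).1 (by rw [hκ 1 N.one_mem, zpow_zero])
            simpa using this
          · simp only [hgh, hg, hh, if_true]
            exact hκmul g hg h hh
        · exfalso
          simp only [hg, hh, if_true, if_false] at hν
          exact absurd (hlt' h hh) (by omega)
      · by_cases hh : h ∈ N
        · exfalso
          simp only [hg, hh, if_true, if_false] at hν
          exact absurd (hlt' g hg) (by omega)
        · simp only [hg, hh, if_false] at hν hθ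
          obtain ⟨h1, h2, h3⟩ := hV.mul_eq (π g) trivial (π h) trivial (hne' g hg) (hne' h hh) hν hθ
          have hgh : g * h ∉ N := fun h1' => h1 ((hπ1 _).2 h1')
          refine ⟨fun h1 => hgh (h1 ▸ N.one_mem), ?_, ?_⟩
          · simp only [hgh, hg, if_false]; exact h2
          · simp only [hgh, hg, hh, if_false]; exact h3
    · intro g _ h _ hg1 hh1 hν hθ
      by_cases hg : g ∈ N
      · by_cases hh : h ∈ N
        · left
          have hgh : g * h ∈ N := N.mul_mem hg hh
          simp only [hg, hh, if_true] at hθ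
          by_contra hne
          exact hκ0 _ hgh hne (by rw [hκmul g hg h hh, hθ])
        · exfalso
          simp only [hg, hh, if_true, if_false] at hν
          exact absurd (hlt' h hh) (by omega)
      · by_cases hh : h ∈ N
        · exfalso
          simp only [hg, hh, if_true, if_false] at hν
          exact absurd (hlt' g hg) (by omega)
        · simp only [hg, hh, if_false] at hν hθ
          by_cases hgh : g * h ∈ N
          · right
            simp only [hgh, hg, if_true, if_false]
            exact hlt' g hg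
          · rcases hV.mul_eq' (π g) trivial (π h) trivial (hne' g hg) (hne' h hh) hν hθ with h1 | h1
            · exact absurd h1 (hne' _ hgh)
            · right
              simp only [hgh, hg, if_false]
              exact h1

end Pool.Agent.TH603.Univ
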