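import Mathlib
import Pool.Agent.TH603.Univ.Val

/-!
# Chief series of countable locally finite p-groups
-/

set_option autoImplicit false

open Filter

namespace Pool.Agent.TH603.Univ

universe u

/-- Extension of a chief series from a subgroup considered as a group. -/
theorem ValOn.lift {G : Type u} [Group G] {p : ℕ} (H : Subgroup G) {ν : H → ℕ} {θ : H → ZMod p}
    (hV : ValOn p (⊤ : Subgroup H) ν θ) :
    ∃ (ν' : G → ℕ) (θ' : G → ZMod p), ValOn p H ν' θ' := by
  classical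
  let ν' : G → ℕ := fun g => if h : g ∈ H then ν ⟨g, h⟩ else 0
  let θ' : G → ZMod p := fun g => if h : g ∈ H then θ ⟨g, h⟩ else 0
  have hν' : ∀ (g : G) (h : g ∈ H), ν' g = ν ⟨g, h⟩ := fun g h => dif_pos h
  have hθ' : ∀ (g : G) (h : g ∈ H), θ' g = θ ⟨g, h⟩ := fun g h => dif_pos h
  have hne : ∀ (g : G) (h : g ∈ H), g ≠ 1 → (⟨g, h⟩ : H) ≠ 1 := fun g h h1 h2 =>
    h1 (congrArg Subtype.val h2)
  refine ⟨ν', θ', ?_⟩
  constructor
  · intro g hg hg1
    rw [hθ' g hg]
    exact hV.ne _ trivial (hne g hg hg1)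
  · intro g hg h hh
    rw [hν' g hg, hν' _ (H.mul_mem (H.mul_mem (H.inv_mem hh) hg) hh)]
    exact hV.conj_ν ⟨g, hg⟩ trivial ⟨h, hh⟩ trivial
  · intro g hg h hh
    rw [hθ' g hg, hθ' _ (H.mul_mem (H.mul_mem (H.inv_mem hh) hg) hh)]
    exact hV.conj_θ ⟨g, hg⟩ trivial ⟨h, hh⟩ trivial
  · intro g hg h hh hg1 hh1 hlt
    rw [hν' g hg, hν' h hh] at hlt
    obtain ⟨h1, h2, h3⟩ := hV.mul_lt ⟨g, hg⟩ trivial ⟨h, hh⟩ trivial (hne g hg hg1)
      (hne h hh hh1) hlt
    refine ⟨fun h4 => h1 (Subtype.ext h4), ?_, ?_⟩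
    · rw [hν' g hg, hν' _ (H.mul_mem hg hh)]; exact h2
    · rw [hθ' g hg, hθ' _ (H.mul_mem hg hh)]; exact h3
  · intro g hg h hh hg1 hh1 hlt
    rw [hν' g hg, hν' h hh] at hlt
    obtain ⟨h1, h2, h3⟩ := hV.mul_gt ⟨g, hg⟩ trivial ⟨h, hh⟩ trivial (hne g hg hg1)
      (hne h hh hh1) hlt
    refine ⟨fun h4 => h1 (Subtype.ext h4), ?_, ?_⟩
    · rw [hν' h hh, hν' _ (H.mul_mem hg hh)]; exact h2
    · rw [hθ' h hh, hθ' _ (H.mul_mem hg hh)]; exact h3
  · intro g hg h hh hg1 hh1 hlt hθ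
    rw [hν' g hg, hν' h hh] at hlt
    rw [hθ' g hg, hθ' h hh] at hθ
    obtain ⟨h1, h2, h3⟩ := hV.mul_eq ⟨g, hg⟩ trivial ⟨h, hh⟩ trivial (hne g hg hg1)
      (hne h hh hh1) hlt hθ
    refine ⟨fun h4 => h1 (Subtype.ext h4), ?_, ?_⟩
    · rw [hν' g hg, hν' _ (H.mul_mem hg hh)]; exact h2
    · rw [hθ' g hg, hθ' h hh, hθ' _ (H.mul_mem hg hh)]; exact h3
  · intro g hg h hh hg1 hh1 hlt hθ
    rw [hν' g hg, hν' h hh] at hlt
    rw [hθ' g hg, hθ' h hh] at hθ
    rcases hV.mul_eq' ⟨g, hg⟩ trivial ⟨h, hh⟩ trivial (hne g hg hg1)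
      (hne h hh hh1) hlt hθ with h1 | h1
    · left; exact congrArg Subtype.val h1
    · right
      rw [hν' g hg, hν' _ (H.mul_mem hg hh)]
      exact h1

/-- Every finitely generated subgroup is a finite `p`-group. -/
def LFp (p : ℕ) (G : Type u) [Group G] : Prop :=
  ∀ s : Finset G, Finite (Subgroup.closure (s : Set G)) ∧
    IsPGroup p (Subgroup.closure (s : Set G))

theorem exists_val (p : ℕ) [hp : Fact p.Prime] (G : Type u) [Group G] [Countable G]
    (hG : LFp p G) : ∃ (ν : G → ℚ) (θ : G → ZMod p), ValOn p (⊤ : Subgroup G) ν θ := by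
  classical
  let H : Finset G → Subgroup G := fun s => Subgroup.closure (s : Set G)
  have hex : ∀ s : Finset G, ∃ (ν : G → ℕ) (θ : G → ZMod p), ValOn p (H s) ν θ := by
    intro s
    obtain ⟨hf, hpg⟩ := hG s
    have hf' : Finite (H s) := hf
    obtain ⟨n, hn⟩ := IsPGroup.iff_card.1 hpg
    obtain ⟨ν, θ, -, hV⟩ := exists_val_finite p n (H s) hn
    exact hV.lift
  choose n t hV using hex
  let 𝒰 : Ultrafilter (Finset G) := Ultrafilter.of atTop
  have hle : (𝒰 : Filter (Finset G)) ≤ atTop := Ultrafilter.of_le atTop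
  have hmem : ∀ g : G, ∀ᶠ s in (𝒰 : Filter (Finset G)), g ∈ H s := by
    intro g
    apply hle
    filter_upwards [eventually_ge_atTop ({g} : Finset G)] with s hs
    exact Subgroup.subset_closure (Finset.mem_coe.2 (hs (Finset.mem_singleton_self g)))
  -- the limit relation
  let R : G → G → Prop := fun g h => ∀ᶠ s in (𝒰 : Filter (Finset G)), n s g ≤ n s h
  have hRrefl : ∀ g, R g g := fun g => Eventually.of_forall fun s => le_rfl
  have hRtrans : ∀ g h k, R g h → R h k → R g k := by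
    intro g h k h1 h2
    filter_upwards [h1, h2] with s h1 h2
    exact h1.trans h2
  have hRtotal : ∀ g h, R g h ∨ R h g := by
    intro g h
    rw [← Ultrafilter.eventually_or]
    exact Eventually.of_forall fun s => le_total _ _
  have hRnot : ∀ g h, ¬ R g h ↔ ∀ᶠ s in (𝒰 : Filter (Finset G)), n s h < n s g := by
    intro g h
    rw [← Ultrafilter.eventually_not]
    simp only [not_le]
  let inst1 : Preorder G :=
    { le := R
      le_refl := hRrefl
      le_trans := hRtrans }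
  have inst2 : @Std.Total G (fun a b => a ≤ b) := ⟨hRtotal⟩
  let Q := Antisymmetrization G (fun a b => a ≤ b)
  have hQc : Countable Q := Quotient.countable
  obtain ⟨e⟩ := Order.embedding_from_countable_to_dense (α := Q) (β := ℚ)
  let ν : G → ℚ := fun g => e (toAntisymmetrization (fun a b => a ≤ b) g)
  have hνle : ∀ g h, ν g ≤ ν h ↔ R g h := by
    intro g h
    rw [e.le_iff_le]
    exact toAntisymmetrization_le_toAntisymmetrization_iff
  have hνlt : ∀ g h, ν g < ν h ↔ ∀ᶠ s in (𝒰 : Filter (Finset G)), n s g < n s h := by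
    intro g h
    rw [← hRnot, ← hνle, not_le]
  have hνeq : ∀ g h, ν g = ν h ↔ ∀ᶠ s in (𝒰 : Filter (Finset G)), n s g = n s h := by
    intro g h
    rw [le_antisymm_iff, hνle, hνle]
    constructor
    · rintro ⟨h1, h2⟩
      filter_upwards [h1, h2] with s h1 h2
      exact le_antisymm h1 h2
    · intro h1
      exact ⟨h1.mono fun s hs => hs.le, h1.mono fun s hs => hs.ge⟩
  -- the limit of the leading coefficients
  have hθex : ∀ g : G, ∃ a : ZMod p, ∀ᶠ s in (𝒰 : Filter (Finset G)), t s g = a := by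
    intro g
    obtain ⟨a, ha⟩ := Ultrafilter.eq_pure_of_finite (𝒰.map fun s => t s g)
    refine ⟨a, ?_⟩
    have h1 : {a} ∈ (𝒰.map fun s => t s g) := by
      rw [ha]; exact Set.mem_singleton a
    exact h1
  choose θ hθ using hθex
  have hlift : ∀ (g : G) (a : ZMod p), (∀ᶠ s in (𝒰 : Filter (Finset G)), t s g = a) → θ g = a := by
    intro g a h1
    obtain ⟨s, hs1, hs2⟩ := (h1.and (hθ g)).exists
    rw [← hs1, hs2]
  refine ⟨ν, θ, ?_⟩
  constructor
  · intro g _ hg
    obtain ⟨s, h1, h2⟩ := ((hmem g).and (hθ g)).exists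
    rw [← h2]
    exact (hV s).ne g h1 hg
  · intro g _ h _
    rw [hνeq]
    filter_upwards [hmem g, hmem h] with s h1 h2
    exact (hV s).conj_ν g h1 h h2
  · intro g _ h _
    apply hlift
    filter_upwards [hmem g, hmem h, hθ g] with s h1 h2 h3
    rw [(hV s).conj_θ g h1 h h2, h3]
  · intro g _ h _ hg hh hlt
    rw [hνlt] at hlt
    have key : ∀ᶠ s in (𝒰 : Filter (Finset G)), g * h ≠ 1 ∧ n s (g * h) = n s g ∧
        t s (g * h) = t s g := by
      filter_upwards [hmem g, hmem h, hlt] with s h1 h2 h3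
      exact (hV s).mul_lt g h1 h h2 hg hh h3
    refine ⟨key.exists.choose_spec.1, (hνeq _ _).2 (key.mono fun s hs => hs.2.1), ?_⟩
    apply hlift
    filter_upwards [key, hθ g] with s h1 h2
    rw [h1.2.2, h2]
  · intro g _ h _ hg hh hlt
    rw [hνlt] at hlt
    have key : ∀ᶠ s in (𝒰 : Filter (Finset G)), g * h ≠ 1 ∧ n s (g * h) = n s h ∧
        t s (g * h) = t s h := by
      filter_upwards [hmem g, hmem h, hlt] with s h1 h2 h3
      exact (hV s).mul_gt g h1 h h2 hg hh h3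
    refine ⟨key.exists.choose_spec.1, (hνeq _ _).2 (key.mono fun s hs => hs.2.1), ?_⟩
    apply hlift
    filter_upwards [key, hθ h] with s h1 h2
    rw [h1.2.2, h2]
  · intro g _ h _ hg hh hlt hsum
    rw [hνeq] at hlt
    have key : ∀ᶠ s in (𝒰 : Filter (Finset G)), g * h ≠ 1 ∧ n s (g * h) = n s g ∧
        t s (g * h) = t s g + t s h := by
      filter_upwards [hmem g, hmem h, hlt, hθ g, hθ h] with s h1 h2 h3 h4 h5
      exact (hV s).mul_eq g h1 h h2 hg hh h3 (by rw [h4, h5]; exact hsum)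
    refine ⟨key.exists.choose_spec.1, (hνeq _ _).2 (key.mono fun s hs => hs.2.1), ?_⟩
    apply hlift
    filter_upwards [key, hθ g, hθ h] with s h1 h2 h3
    rw [h1.2.2, h2, h3]
  · intro g _ h _ hg hh hlt hsum
    rw [hνeq] at hlt
    by_cases h1 : g * h = 1
    · exact Or.inl h1
    · right
      rw [hνlt]
      filter_upwards [hmem g, hmem h, hlt, hθ g, hθ h] with s h2 h3 h4 h5 h6
      exact ((hV s).mul_eq' g h2 h h3 hg hh h4 (by rw [h5, h6]; exact hsum)).resolve_left h1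

end Pool.Agent.TH603.Univ
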