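import Mathlib
import Pool.Agent.TH603.Univ.Lim

/-!
# Coordinates on finite subgroups, adapted to a chief series
-/

set_option autoImplicit false

namespace Pool.Agent.TH603.Univ

set_option linter.unusedSectionVars false

universe u

section

variable {G : Type u} [Group G] {p : ℕ} [hp : Fact p.Prime] {ν : G → ℚ} {θ : G → ZMod p}

theorem ValOn.inv (hV : ValOn p (⊤ : Subgroup G) ν θ) {g : G} (hg : g ≠ 1) :
    ν g⁻¹ = ν g ∧ θ g⁻¹ = - θ g := by
  have hg' : g⁻¹ ≠ 1 := inv_ne_one.2 hg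
  have hν : ν g = ν g⁻¹ := by
    rcases lt_trichotomy (ν g) (ν g⁻¹) with h | h | h
    · exact absurd (mul_inv_cancel g) (hV.mul_lt g trivial g⁻¹ trivial hg hg' h).1
    · exact h
    · exact absurd (mul_inv_cancel g) (hV.mul_gt g trivial g⁻¹ trivial hg hg' h).1
  refine ⟨hν.symm, ?_⟩
  by_contra hne
  have h2 : θ g + θ g⁻¹ ≠ 0 := fun h => hne (eq_neg_of_add_eq_zero_right h)
  exact absurd (mul_inv_cancel g) (hV.mul_eq g trivial g⁻¹ trivial hg hg' hν h2).1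

theorem natCast_ne_zero_of_lt {n : ℕ} (h0 : 0 < n) (h1 : n < p) : (n : ZMod p) ≠ 0 := by
  intro h
  rw [ZMod.natCast_eq_zero_iff] at h
  exact absurd (Nat.le_of_dvd h0 h) (not_le.2 h1)

theorem ValOn.pow (hV : ValOn p (⊤ : Subgroup G) ν θ) {c : G} (hc : c ≠ 1) :
    ∀ n : ℕ, n + 1 < p → c ^ (n + 1) ≠ 1 ∧ ν (c ^ (n + 1)) = ν c ∧
      θ (c ^ (n + 1)) = ((n + 1 : ℕ) : ZMod p) * θ c := by
  intro n
  induction n with
  | zero =>
    intro _
    simp [hc]
  | succ n ih =>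
    intro hn
    obtain ⟨h1, h2, h3⟩ := ih (by omega)
    have h4 : θ (c ^ (n + 1)) + θ c ≠ 0 := by
      rw [h3]
      have : ((n + 1 : ℕ) : ZMod p) * θ c + θ c = ((n + 1 + 1 : ℕ) : ZMod p) * θ c := by
        push_cast; ring
      rw [this]
      exact mul_ne_zero (natCast_ne_zero_of_lt (Nat.succ_pos _) hn) (hV.ne c trivial hc)
    obtain ⟨h5, h6, h7⟩ := hV.mul_eq _ trivial c trivial h1 hc h2 h4
    rw [pow_succ c (n + 1)]
    refine ⟨h5, h6.trans h2, ?_⟩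
    rw [h7, h3]
    push_cast; ring

/-- The places of the chief series met by the subgroup `A`. -/
def L (ν : G → ℚ) (A : Subgroup G) : Set ℚ := {q | ∃ g ∈ A, g ≠ 1 ∧ ν g = q}

/-- A system of coordinates on the subgroup `A`. -/
structure Coord (p : ℕ) (ν : G → ℚ) (θ : G → ZMod p) (A : Subgroup G)
    (x : G → ℚ → ZMod p) : Prop where
  supp : ∀ f ∈ A, ∀ k, k ∉ L ν A → x f k = 0
  P1 : ∀ f ∈ A, ∀ f' ∈ A, f ≠ f' → ∀ j < ν (f⁻¹ * f'), x f j = x f' j
  P2 : ∀ f ∈ A, ∀ f' ∈ A, f ≠ f' → x f' (ν (f⁻¹ * f')) = x f (ν (f⁻¹ * f')) + θ (f⁻¹ * f')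
  surj : ∀ y : ℚ → ZMod p, (∀ k, k ∉ L ν A → y k = 0) → ∃ f ∈ A, x f = y

/-- The coordinates `x'` on `A'` extend the coordinates `x` on `A`. -/
def Ext (ν : G → ℚ) (A : Subgroup G) (x : G → ℚ → ZMod p) (A' : Subgroup G)
    (x' : G → ℚ → ZMod p) : Prop :=
  A ≤ A' ∧ ∀ g ∈ A', ∃ f ∈ A, ∀ a ∈ A,
    (∀ k ∈ L ν A, x' (g * a) k = x (f * a) k) ∧ ∀ k, k ∉ L ν A → x' (g * a) k = x' g k

theorem L_mono {A A' : Subgroup G} (h : A ≤ A') : L ν A ⊆ L ν A' := by
  rintro q ⟨g, hg, h1, h2⟩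
  exact ⟨g, h hg, h1, h2⟩

theorem Coord.ext_refl {A : Subgroup G} {x : G → ℚ → ZMod p} (h : Coord p ν θ A x) :
    Ext ν A x A x := by
  refine ⟨le_rfl, fun g hg => ⟨g, hg, fun a ha => ⟨fun k _ => rfl, fun k hk => ?_⟩⟩⟩
  rw [h.supp _ (A.mul_mem hg ha) k hk, h.supp _ hg k hk]

theorem Ext.trans {A A' A'' : Subgroup G} {x x' x'' : G → ℚ → ZMod p}
    (h1 : Ext ν A x A' x') (h2 : Ext ν A' x' A'' x'') : Ext ν A x A'' x'' := by
  refine ⟨h1.1.trans h2.1, fun g hg => ?_⟩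
  obtain ⟨f', hf', h3⟩ := h2.2 g hg
  obtain ⟨f, hf, h4⟩ := h1.2 f' hf'
  refine ⟨f, hf, fun a ha => ⟨fun k hk => ?_, fun k hk => ?_⟩⟩
  · rw [(h3 a (h1.1 ha)).1 k (L_mono h1.1 hk), (h4 a ha).1 k hk]
  · by_cases hk' : k ∈ L ν A'
    · rw [(h3 a (h1.1 ha)).1 k hk', (h4 a ha).2 k hk]
      have := (h3 1 A'.one_mem).1 k hk'
      rw [mul_one, mul_one] at this
      exact this.symm
    · exact (h3 a (h1.1 ha)).2 k hk'

theorem coord_bot : Coord p ν θ (⊥ : Subgroup G) (fun _ _ => 0) := by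
  refine ⟨fun _ _ _ _ => rfl, fun _ _ _ _ _ _ _ => rfl, ?_, ?_⟩
  · intro f hf f' hf' hne
    rw [Subgroup.mem_bot] at hf hf'
    exact absurd (hf.trans hf'.symm) hne
  · intro y hy
    refine ⟨1, Subgroup.one_mem _, ?_⟩
    funext k
    rw [hy k]
    rintro ⟨g, hg, h1, -⟩
    exact h1 (Subgroup.mem_bot.1 hg)

/-- The distinguished element of the extension step. -/
theorem exists_new (hV : ValOn p (⊤ : Subgroup G) ν θ) {A K : Subgroup G} [Finite K]
    (hAK : A ≤ K) (hne : A ≠ K) : ∃ c ∈ K, c ∉ A ∧ ν c ∉ L ν A := by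
  classical
  obtain ⟨d, hdK, hdA⟩ : ∃ d ∈ K, d ∉ A := by
    by_contra hcon
    push Not at hcon
    exact hne (le_antisymm hAK hcon)
  have hfin : {c : G | c ∈ K ∧ c ∉ A}.Finite :=
    Set.Finite.subset (Set.toFinite (K : Set G)) fun c hc => hc.1
  obtain ⟨c, ⟨hcK, hcA⟩, hmax⟩ := Set.exists_max_image _ ν hfin ⟨d, hdK, hdA⟩
  refine ⟨c, hcK, hcA, ?_⟩
  rintro ⟨f, hfA, hf1, hfν⟩
  have hc1 : c ≠ 1 := fun h => hcA (h ▸ A.one_mem)
  -- cancel the leading coefficient of `c` by a power of `f`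
  have hθf := hV.ne f trivial hf1
  have hθc := hV.ne c trivial hc1
  let a : ZMod p := - θ c / θ f
  have ha0 : a ≠ 0 := div_ne_zero (neg_ne_zero.2 hθc) hθf
  have haval : a.val ≠ 0 := fun h => ha0 ((ZMod.val_eq_zero a).1 h)
  obtain ⟨m, hm⟩ := Nat.exists_eq_succ_of_ne_zero haval
  have hlt : m + 1 < p := by
    have h := ZMod.val_lt a
    rw [hm] at h
    exact h
  obtain ⟨h1, h2, h3⟩ := hV.pow hf1 m hlt
  have h4 : θ c + θ (f ^ (m + 1)) = 0 := by
    rw [h3]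
    have h5 : ((m + 1 : ℕ) : ZMod p) = a := by
      have : (a.val : ZMod p) = a := ZMod.natCast_zmod_val a
      rw [hm] at this
      exact this
    rw [h5]
    change θ c + - θ c / θ f * θ f = 0
    rw [div_mul_cancel₀ _ hθf]
    ring
  have hfp : f ^ (m + 1) ∈ A := A.pow_mem hfA _
  have hprod : c * f ^ (m + 1) ∉ A := fun h => hcA ((A.mul_mem_cancel_right hfp).1 h)
  rcases hV.mul_eq' c trivial _ trivial hc1 h1 (hfν.symm.trans h2.symm) h4 with h5 | h5
  · exact hprod (h5 ▸ A.one_mem)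
  · exact absurd (hmax _ ⟨K.mul_mem hcK (hAK hfp), hprod⟩) (not_le.2 h5)

theorem new_decomp (hV : ValOn p (⊤ : Subgroup G) ν θ) {A K : Subgroup G} [Finite K]
    (hAK : A ≤ K) {c : G} (hcK : c ∈ K) (hcA : c ∉ A) (hcL : ν c ∉ L ν A)
    (hcard : Nat.card K = p * Nat.card A) :
    (∀ n m : ℕ, n < p → m < p → ∀ f ∈ A, ∀ h ∈ A, c ^ n * f = c ^ m * h → n = m ∧ f = h) ∧
    ∀ g ∈ K, ∃ n < p, ∃ f ∈ A, g = c ^ n * f := by
  have hc1 : c ≠ 1 := fun h => hcA (h ▸ A.one_mem)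
  have hkey : ∀ n m : ℕ, n < p → m < p → n ≤ m → ∀ f ∈ A, ∀ h ∈ A,
      c ^ n * f = c ^ m * h → n = m ∧ f = h := by
    intro n m hn hm hnm f hf h hh he
    rcases Nat.eq_or_lt_of_le hnm with h1 | h1
    · subst h1
      exact ⟨rfl, mul_left_cancel he⟩
    · exfalso
      obtain ⟨k, rfl⟩ : ∃ k, m = n + (k + 1) := ⟨m - n - 1, by omega⟩
      have h2 : c ^ (k + 1) = f * h⁻¹ := by
        rw [pow_add, mul_assoc] at he
        rw [eq_mul_inv_iff_mul_eq]
        exact (mul_left_cancel he).symm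
      obtain ⟨h3, h4, -⟩ := hV.pow hc1 k (by omega)
      exact hcL ⟨c ^ (k + 1), h2 ▸ A.mul_mem hf (A.inv_mem hh), h3, h4⟩
  have huniq : ∀ n m : ℕ, n < p → m < p → ∀ f ∈ A, ∀ h ∈ A, c ^ n * f = c ^ m * h →
      n = m ∧ f = h := by
    intro n m hn hm f hf h hh he
    rcases le_total n m with h1 | h1
    · exact hkey n m hn hm h1 f hf h hh he
    · obtain ⟨h2, h3⟩ := hkey m n hm hn h1 h hh f hf he.symm
      exact ⟨h2.symm, h3.symm⟩
  refine ⟨huniq, ?_⟩
  have hAf : Finite A := Finite.Set.subset (K : Set G) hAK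
  let F : Fin p × A → K := fun z => ⟨c ^ (z.1 : ℕ) * z.2, K.mul_mem (K.pow_mem hcK _) (hAK z.2.2)⟩
  have hFinj : Function.Injective F := by
    rintro ⟨n, f⟩ ⟨m, h⟩ he
    obtain ⟨h1, h2⟩ := huniq n m n.2 m.2 f f.2 h h.2 (congrArg Subtype.val he)
    exact Prod.ext (Fin.ext h1) (Subtype.ext h2)
  have hFbij : Function.Bijective F := by
    rw [Nat.bijective_iff_injective_and_card]
    refine ⟨hFinj, ?_⟩
    rw [Nat.card_prod, Nat.card_eq_fintype_card (α := Fin p), Fintype.card_fin, hcard]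
  intro g hg
  obtain ⟨⟨n, f⟩, hnf⟩ := hFbij.2 ⟨g, hg⟩
  exact ⟨n, n.2, f, f.2, (congrArg Subtype.val hnf).symm⟩

/-- One step of the extension of coordinates. -/
theorem exists_step (hV : ValOn p (⊤ : Subgroup G) ν θ) {A K : Subgroup G} [Finite K]
    (hAK : A ≤ K) (hcard : Nat.card K = p * Nat.card A) {x : G → ℚ → ZMod p}
    (hx : Coord p ν θ A x) :
    ∃ x' : G → ℚ → ZMod p, Coord p ν θ K x' ∧ Ext ν A x K x' := by
  classical
  have hne : A ≠ K := by
    rintro rfl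
    have h1 : 0 < Nat.card A := Nat.card_pos
    have h2 := hp.out.one_lt
    nlinarith
  obtain ⟨c, hcK, hcA, hcL⟩ := exists_new hV hAK hne
  obtain ⟨huniq, hdec⟩ := new_decomp hV hAK hcK hcA hcL hcard
  have hc1 : c ≠ 1 := fun h => hcA (h ▸ A.one_mem)
  choose! n hn f hf hg using hdec
  let x' : G → ℚ → ZMod p := fun g k => x (f g) k + if k = ν c then (n g : ZMod p) * θ c else 0
  have hx' : ∀ m < p, ∀ a ∈ A, ∀ k, x' (c ^ m * a) k =
      x a k + if k = ν c then (m : ZMod p) * θ c else 0 := by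
    intro m hm a ha k
    have hmem : c ^ m * a ∈ K := K.mul_mem (K.pow_mem hcK m) (hAK ha)
    obtain ⟨h1, h2⟩ := huniq _ _ (hn _ hmem) hm _ (hf _ hmem) _ ha (hg _ hmem).symm
    change x (f (c ^ m * a)) k + _ = _
    rw [h1, h2]
  have hLK : ∀ k, k ∈ L ν K ↔ k ∈ L ν A ∨ k = ν c := by
    intro k
    constructor
    · rintro ⟨g, hgK, hg1, rfl⟩
      rw [hg g hgK] at hg1 ⊢
      rcases Nat.eq_zero_or_pos (n g) with h0 | h0
      · left
        rw [h0, pow_zero, one_mul] at hg1 ⊢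
        exact ⟨f g, hf g hgK, hg1, rfl⟩
      · obtain ⟨m, hm⟩ := Nat.exists_eq_succ_of_ne_zero h0.ne'
        have hmp : m + 1 < p := by have := hn g hgK; omega
        obtain ⟨h1, h2, h3⟩ := hV.pow hc1 m hmp
        rw [hm] at hg1 ⊢
        change ν (c ^ (m + 1) * f g) ∈ L ν A ∨ ν (c ^ (m + 1) * f g) = ν c
        by_cases hf1 : f g = 1
        · right
          rw [hf1, mul_one]
          exact h2
        · have hfL : ν (f g) ∈ L ν A := ⟨f g, hf g hgK, hf1, rfl⟩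
          rcases lt_trichotomy (ν (c ^ (m + 1))) (ν (f g)) with h4 | h4 | h4
          · right
            rw [(hV.mul_lt _ trivial _ trivial h1 hf1 h4).2.1, h2]
          · exfalso
            rw [h2] at h4
            exact hcL (h4 ▸ hfL)
          · left
            rw [(hV.mul_gt _ trivial _ trivial h1 hf1 h4).2.1]
            exact hfL
    · rintro (h | rfl)
      · exact L_mono hAK h
      · exact ⟨c, hcK, hc1, rfl⟩
  -- the main computation
  have hmain : ∀ m1 m2 : ℕ, m1 < p → m2 < p → m1 ≤ m2 → ∀ a ∈ A, ∀ b ∈ A,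
      c ^ m1 * a ≠ c ^ m2 * b →
      (∀ j < ν ((c ^ m1 * a)⁻¹ * (c ^ m2 * b)), x' (c ^ m1 * a) j = x' (c ^ m2 * b) j) ∧
      x' (c ^ m2 * b) (ν ((c ^ m1 * a)⁻¹ * (c ^ m2 * b))) =
        x' (c ^ m1 * a) (ν ((c ^ m1 * a)⁻¹ * (c ^ m2 * b))) +
          θ ((c ^ m1 * a)⁻¹ * (c ^ m2 * b)) := by
    intro m1 m2 hm1 hm2 hle a ha b hb hne'
    rcases Nat.eq_or_lt_of_le hle with h1 | h1
    · subst h1
      have hab : a ≠ b := fun h => hne' (by rw [h])
      have he : (c ^ m1 * a)⁻¹ * (c ^ m1 * b) = a⁻¹ * b := by group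
      rw [he]
      refine ⟨fun j hj => ?_, ?_⟩
      · rw [hx' m1 hm1 a ha, hx' m1 hm1 b hb, hx.P1 a ha b hb hab j hj]
      · rw [hx' m1 hm1 a ha, hx' m1 hm1 b hb, hx.P2 a ha b hb hab]
        ring
    · obtain ⟨k, rfl⟩ : ∃ k, m2 = m1 + (k + 1) := ⟨m2 - m1 - 1, by omega⟩
      obtain ⟨hc2, hc3, hc4⟩ := hV.pow hc1 k (by omega)
      have he : (c ^ m1 * a)⁻¹ * (c ^ (m1 + (k + 1)) * b) =
          (a⁻¹ * c ^ (k + 1) * a) * (a⁻¹ * b) := by
        rw [pow_add]; group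
      have hu1 : a⁻¹ * c ^ (k + 1) * a ≠ 1 := by
        intro h
        apply hc2
        have h2 : a⁻¹ * c ^ (k + 1) = a⁻¹ := by
          rw [← mul_left_inj a, h, inv_mul_cancel]
        exact mul_left_cancel (h2.trans (mul_one a⁻¹).symm)
      have huν : ν (a⁻¹ * c ^ (k + 1) * a) = ν c := by
        rw [hV.conj_ν _ trivial _ trivial, hc3]
      have huθ : θ (a⁻¹ * c ^ (k + 1) * a) = ((k + 1 : ℕ) : ZMod p) * θ c := by
        rw [hV.conj_θ _ trivial _ trivial, hc4]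
      rw [he]
      by_cases hab : a = b
      · subst hab
        have he2 : (a⁻¹ * c ^ (k + 1) * a) * (a⁻¹ * a) = a⁻¹ * c ^ (k + 1) * a := by group
        rw [he2, huν, huθ]
        refine ⟨fun j hj => ?_, ?_⟩
        · rw [hx' m1 hm1 a ha, hx' _ hm2 a ha, if_neg hj.ne, if_neg hj.ne]
        · rw [hx' m1 hm1 a ha, hx' _ hm2 a ha, if_pos rfl, if_pos rfl]
          push_cast; ring
      · have hv1 : a⁻¹ * b ≠ 1 := fun h => hab (inv_mul_eq_one.1 h)
        have hvL : ν (a⁻¹ * b) ∈ L ν A := ⟨_, A.mul_mem (A.inv_mem ha) hb, hv1, rfl⟩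
        have hvc : ν (a⁻¹ * b) ≠ ν c := fun h => hcL (h ▸ hvL)
        rcases lt_or_gt_of_ne hvc with h2 | h2
        · obtain ⟨-, h3, h4⟩ := hV.mul_gt _ trivial _ trivial hu1 hv1 (by rw [huν]; exact h2)
          rw [h3, h4]
          refine ⟨fun j hj => ?_, ?_⟩
          · rw [hx' m1 hm1 a ha, hx' _ hm2 b hb, if_neg (hj.trans h2).ne, if_neg (hj.trans h2).ne,
              hx.P1 a ha b hb hab j hj]
          · rw [hx' m1 hm1 a ha, hx' _ hm2 b hb, if_neg hvc, if_neg hvc, hx.P2 a ha b hb hab]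
            ring
        · obtain ⟨-, h3, h4⟩ := hV.mul_lt _ trivial _ trivial hu1 hv1 (by rw [huν]; exact h2)
          rw [h3, h4, huν, huθ]
          refine ⟨fun j hj => ?_, ?_⟩
          · rw [hx' m1 hm1 a ha, hx' _ hm2 b hb, if_neg hj.ne, if_neg hj.ne,
              hx.P1 a ha b hb hab j (hj.trans h2)]
          · rw [hx' m1 hm1 a ha, hx' _ hm2 b hb, if_pos rfl, if_pos rfl,
              hx.P1 a ha b hb hab _ h2]
            push_cast; ring
  have hmain2 : ∀ g1 ∈ K, ∀ g2 ∈ K, g1 ≠ g2 →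
      (∀ j < ν (g1⁻¹ * g2), x' g1 j = x' g2 j) ∧
      x' g2 (ν (g1⁻¹ * g2)) = x' g1 (ν (g1⁻¹ * g2)) + θ (g1⁻¹ * g2) := by
    intro g1 h1 g2 h2 hne'
    rcases le_total (n g1) (n g2) with h | h
    · have := hmain (n g1) (n g2) (hn g1 h1) (hn g2 h2) h (f g1) (hf g1 h1) (f g2) (hf g2 h2)
      rw [← hg g1 h1, ← hg g2 h2] at this
      exact this hne'
    · have := hmain (n g2) (n g1) (hn g2 h2) (hn g1 h1) h (f g2) (hf g2 h2) (f g1) (hf g1 h1)
      rw [← hg g1 h1, ← hg g2 h2] at this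
      obtain ⟨h3, h4⟩ := this hne'.symm
      have he : g1⁻¹ * g2 = (g2⁻¹ * g1)⁻¹ := by group
      have h5 : g2⁻¹ * g1 ≠ 1 := fun h => hne' (inv_mul_eq_one.1 h).symm
      obtain ⟨h6, h7⟩ := hV.inv h5
      rw [he, h6, h7]
      refine ⟨fun j hj => (h3 j hj).symm, ?_⟩
      rw [h4]
      ring
  refine ⟨x', ⟨?_, fun g1 h1 g2 h2 hne' => (hmain2 g1 h1 g2 h2 hne').1,
    fun g1 h1 g2 h2 hne' => (hmain2 g1 h1 g2 h2 hne').2, ?_⟩, hAK, ?_⟩
  · intro g hgK k hk
    have h1 : k ∉ L ν A := fun h => hk ((hLK k).2 (Or.inl h))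
    have h2 : k ≠ ν c := fun h => hk ((hLK k).2 (Or.inr h))
    change x (f g) k + _ = 0
    rw [if_neg h2, add_zero]
    exact hx.supp _ (hf g hgK) k h1
  · intro y hy
    have hθc := hV.ne c trivial hc1
    obtain ⟨a, ha, hay⟩ := hx.surj (fun k => if k = ν c then 0 else y k) (by
      intro k hk
      by_cases h : k = ν c
      · simp [h]
      · simp only [h, if_false]
        exact hy k fun h' => ((hLK k).1 h').elim hk h)
    refine ⟨c ^ (y (ν c) / θ c).val * a, K.mul_mem (K.pow_mem hcK _) (hAK ha), ?_⟩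
    funext k
    rw [hx' _ (ZMod.val_lt _) a ha, hay]
    by_cases h : k = ν c
    · subst h
      simp only [if_true, zero_add]
      rw [ZMod.natCast_zmod_val, div_mul_cancel₀ _ hθc]
    · simp [h]
  · intro g hgK
    refine ⟨f g, hf g hgK, fun a ha => ?_⟩
    have he : g * a = c ^ (n g) * (f g * a) := by
      rw [← mul_assoc, ← hg g hgK]
    have h1 := hx' (n g) (hn g hgK) (f g * a) (A.mul_mem (hf g hgK) ha)
    refine ⟨fun k hk => ?_, fun k hk => ?_⟩
    · have hkc : k ≠ ν c := fun h => hcL (h ▸ hk)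
      rw [he, h1, if_neg hkc, add_zero]
    · rw [he, h1, hx.supp _ (A.mul_mem (hf g hgK) ha) k hk]
      change _ = x (f g) k + _
      rw [hx.supp _ (hf g hgK) k hk]

/-- Coordinates extend from a subgroup to every larger finite `p`-subgroup. -/
theorem exists_ext (hV : ValOn p (⊤ : Subgroup G) ν θ) (B : Subgroup G) [Finite B]
    (hB : IsPGroup p B) : ∀ (d : ℕ) (A : Subgroup G) (x : G → ℚ → ZMod p), A ≤ B →
    Nat.card B = p ^ d * Nat.card A → Coord p ν θ A x →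
    ∃ x' : G → ℚ → ZMod p, Coord p ν θ B x' ∧ Ext ν A x B x' := by
  intro d
  induction d with
  | zero =>
    intro A x hAB hcard hx
    rw [pow_zero, one_mul] at hcard
    have hAf : Finite A := Finite.Set.subset (B : Set G) hAB
    have heq : A = B := by
      apply SetLike.coe_injective
      apply Set.eq_of_subset_of_ncard_le hAB
      · rw [← Nat.card_coe_set_eq, ← Nat.card_coe_set_eq]
        exact hcard.le
    subst heq
    exact ⟨x, hx, hx.ext_refl⟩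
  | succ d ih =>
    intro A x hAB hcard hx
    have hAf : Finite A := Finite.Set.subset (B : Set G) hAB
    -- a subgroup of order `p * |A|` between `A` and `B`
    obtain ⟨m, hm⟩ := IsPGroup.iff_card.1 hB
    have hApg : IsPGroup p A := hB.to_le hAB
    obtain ⟨a, ha⟩ := IsPGroup.iff_card.1 hApg
    have hdvd : p ^ (a + 1) ∣ Nat.card B := by
      rw [hcard, ha, pow_succ, pow_succ]
      exact ⟨p ^ d, by ring⟩
    have hA' : Nat.card (A.subgroupOf B) = p ^ a := by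
      rw [← ha]
      exact Nat.card_congr (Subgroup.subgroupOfEquivOfLe hAB).toEquiv
    obtain ⟨K', hK'card, hK'le⟩ := Sylow.exists_subgroup_card_pow_succ hdvd hA'
    let K : Subgroup G := K'.map B.subtype
    have hKcard : Nat.card K = p ^ (a + 1) := by
      rw [← hK'card]
      exact (Nat.card_congr (K'.equivMapOfInjective B.subtype B.subtype_injective).toEquiv).symm
    have hAK : A ≤ K := by
      intro g hg
      exact ⟨⟨g, hAB hg⟩, hK'le (Subgroup.mem_subgroupOf.2 hg), rfl⟩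
    have hKB : K ≤ B := by
      rintro _ ⟨g, -, rfl⟩
      exact g.2
    have hKf : Finite K := Finite.Set.subset (B : Set G) hKB
    obtain ⟨x1, hx1, he1⟩ := exists_step hV hAK (by rw [hKcard, ha, pow_succ]; ring) hx
    obtain ⟨x2, hx2, he2⟩ := ih K x1 hKB (by rw [hcard, hKcard, ha, pow_succ, pow_succ]; ring) hx1
    exact ⟨x2, hx2, he1.trans he2⟩

end

end Pool.Agent.TH603.Univ
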