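import Mathlib

/-!
# The wreath power of a cyclic group of order p over the rationals
-/

set_option autoImplicit false

namespace Pool.Agent.TH603.Univ

/-- `π` only moves the coordinates in `I`, and the increment of a coordinate depends only on the
coordinates in `I` which come before it. -/
def Tri (p : ℕ) (I : Finset ℚ) (π : Equiv.Perm (ℚ → ZMod p)) : Prop :=
  (∀ y k, k ∉ I → π y k = y k) ∧
  ∀ k ∈ I, ∀ y y', (∀ j ∈ I, j < k → y j = y' j) → π y k - y k = π y' k - y' k

theorem Tri.mono {p : ℕ} {I J : Finset ℚ} (h : I ⊆ J) {π : Equiv.Perm (ℚ → ZMod p)}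
    (hπ : Tri p I π) : Tri p J π := by
  refine ⟨fun y k hk => hπ.1 y k fun h' => hk (h h'), ?_⟩
  intro k hk y y' hy
  by_cases hkI : k ∈ I
  · exact hπ.2 k hkI y y' fun j hj hjk => hy j (h hj) hjk
  · rw [hπ.1 y k hkI, hπ.1 y' k hkI, sub_self, sub_self]

theorem Tri.one (p : ℕ) (I : Finset ℚ) : Tri p I 1 :=
  ⟨fun _ _ _ => rfl, fun k _ y y' _ => by simp⟩

theorem Tri.mul {p : ℕ} {I : Finset ℚ} {π σ : Equiv.Perm (ℚ → ZMod p)} (hπ : Tri p I π)
    (hσ : Tri p I σ) : Tri p I (π * σ) := by
  refine ⟨fun y k hk => ?_, fun k hk y y' hy => ?_⟩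
  · rw [Equiv.Perm.mul_apply, hπ.1 _ k hk, hσ.1 _ k hk]
  · rw [Equiv.Perm.mul_apply, Equiv.Perm.mul_apply]
    have h1 := hσ.2 k hk y y' hy
    have h2 : π (σ y) k - σ y k = π (σ y') k - σ y' k := by
      apply hπ.2 k hk
      intro j hj hjk
      have h3 := hσ.2 j hj y y' fun i hi hij => hy i hi (hij.trans hjk)
      rw [hy j hj hjk] at h3
      exact sub_left_injective h3
    linear_combination h1 + h2

theorem Tri.inv {p : ℕ} {I : Finset ℚ} {π : Equiv.Perm (ℚ → ZMod p)} (hπ : Tri p I π) :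
    Tri p I π⁻¹ := by
  have hinv : ∀ z, π (π⁻¹ z) = z := fun z => π.apply_symm_apply z
  have hfix : ∀ y k, k ∉ I → π⁻¹ y k = y k := by
    intro y k hk
    have h1 := hπ.1 (π⁻¹ y) k hk
    rw [hinv] at h1
    exact h1.symm
  have key : ∀ (n : ℕ) (k : ℚ), k ∈ I → (I.filter (· < k)).card = n → ∀ y y',
      (∀ j ∈ I, j < k → y j = y' j) → π⁻¹ y k - y k = π⁻¹ y' k - y' k := by
    intro n
    induction n using Nat.strong_induction_on with
    | _ n ih =>
      intro k hk hn y y' hy
      have hlow : ∀ j ∈ I, j < k → π⁻¹ y j = π⁻¹ y' j := by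
        intro j hj hjk
        have hlt : (I.filter (· < j)).card < n := by
          rw [← hn]
          apply Finset.card_lt_card
          rw [Finset.ssubset_iff_of_subset]
          · exact ⟨j, Finset.mem_filter.2 ⟨hj, hjk⟩, fun h => lt_irrefl _ (Finset.mem_filter.1 h).2⟩
          · intro i hi
            rw [Finset.mem_filter] at hi ⊢
            exact ⟨hi.1, hi.2.trans hjk⟩
        have h1 := ih _ hlt j hj rfl y y' fun i hi hij => hy i hi (hij.trans hjk)
        rw [hy j hj hjk] at h1
        exact sub_left_injective h1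
      have h2 := hπ.2 k hk (π⁻¹ y) (π⁻¹ y') hlow
      rw [hinv, hinv] at h2
      linear_combination -h2
  exact ⟨hfix, fun k hk y y' hy => key _ k hk rfl y y' hy⟩

/-- The iterated wreath product over the finite chain `I`. -/
def W (p : ℕ) (I : Finset ℚ) : Subgroup (Equiv.Perm (ℚ → ZMod p)) where
  carrier := {π | Tri p I π}
  one_mem' := Tri.one p I
  mul_mem' := Tri.mul
  inv_mem' := Tri.inv

theorem mem_W {p : ℕ} {I : Finset ℚ} {π : Equiv.Perm (ℚ → ZMod p)} : π ∈ W p I ↔ Tri p I π :=
  Iff.rfl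

theorem W_mono {p : ℕ} {I J : Finset ℚ} (h : I ⊆ J) : W p I ≤ W p J := fun _ hπ => Tri.mono h hπ

/-- `π` belongs to the iterated wreath product over some finite set of rationals. -/
def ExTri (p : ℕ) (π : Equiv.Perm (ℚ → ZMod p)) : Prop := ∃ I, Tri p I π

theorem ExTri.one (p : ℕ) : ExTri p 1 := ⟨∅, Tri.one p ∅⟩

theorem ExTri.mul {p : ℕ} {π σ : Equiv.Perm (ℚ → ZMod p)} (hπ : ExTri p π) (hσ : ExTri p σ) :
    ExTri p (π * σ) := by
  classical
  obtain ⟨I, hπ⟩ := hπ
  obtain ⟨J, hσ⟩ := hσ
  exact ⟨I ∪ J, (hπ.mono Finset.subset_union_left).mul (hσ.mono Finset.subset_union_right)⟩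

theorem ExTri.inv {p : ℕ} {π : Equiv.Perm (ℚ → ZMod p)} (hπ : ExTri p π) : ExTri p π⁻¹ := by
  obtain ⟨I, hπ⟩ := hπ
  exact ⟨I, hπ.inv⟩

/-- The wreath power over the rationals. -/
def Wr (p : ℕ) : Subgroup (Equiv.Perm (ℚ → ZMod p)) where
  carrier := {π | ExTri p π}
  one_mem' := ExTri.one p
  mul_mem' := ExTri.mul
  inv_mem' := ExTri.inv

theorem finite_W (p : ℕ) [NeZero p] (I : Finset ℚ) : Finite (W p I) := by
  classical
  let ext : (I → ZMod p) → (ℚ → ZMod p) := fun y k => if h : k ∈ I then y ⟨k, h⟩ else 0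
  let F : W p I → ((I → ZMod p) → (I → ZMod p)) := fun π y k => π.1 (ext y) k
  apply Finite.of_injective F
  intro π σ hF
  apply Subtype.ext
  apply Equiv.ext
  intro z
  funext k
  by_cases hk : k ∈ I
  · have hz : ∀ j ∈ I, j < k → z j = ext (fun i => z i) j := by
      intro j hj _
      simp [ext, hj]
    have h1 := π.2.2 k hk z _ hz
    have h2 := σ.2.2 k hk z _ hz
    have h3 : π.1 (ext fun i => z i) k = σ.1 (ext fun i => z i) k :=
      congrFun (congrFun hF fun i => z i) ⟨k, hk⟩
    rw [h3] at h1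
    have h4 := h1.trans h2.symm
    exact sub_left_injective h4
  · rw [π.2.1 z k hk, σ.2.1 z k hk]

theorem countable_Wr (p : ℕ) [NeZero p] : Countable (Wr p) := by
  have h : (Wr p : Set (Equiv.Perm (ℚ → ZMod p))) = ⋃ I : Finset ℚ, (W p I : Set _) := by
    ext π
    simp only [Set.mem_iUnion]
    exact Iff.rfl
  have h2 : (Wr p : Set (Equiv.Perm (ℚ → ZMod p))).Countable := by
    rw [h]
    apply Set.countable_iUnion
    intro I
    have := finite_W p I
    exact (Set.toFinite (W p I : Set (Equiv.Perm (ℚ → ZMod p)))).countable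
  exact h2.to_subtype

/-- Elements of `W p I` have order a power of `p`. -/
theorem pow_eq_one (p : ℕ) {I : Finset ℚ} {π : Equiv.Perm (ℚ → ZMod p)} (hπ : π ∈ W p I) :
    ∃ n, π ^ p ^ n = 1 := by
  classical
  have key : ∀ (n : ℕ) (J : Finset ℚ), J.card = n → J ⊆ I →
      (∀ k ∈ J, ∀ j ∈ I, j < k → j ∈ J) → ∀ y, ∀ k ∈ J, (π ^ p ^ n) y k = y k := by
    intro n
    induction n with
    | zero =>
      intro J hJ _ _ y k hk
      rw [Finset.card_eq_zero] at hJ
      rw [hJ] at hk
      exact absurd hk (Finset.notMem_empty k)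
    | succ n ih =>
      intro J hJ hJI hlow
      have hne : J.Nonempty := by
        rw [← Finset.card_pos, hJ]
        exact Nat.succ_pos n
      let m := J.max' hne
      have hm : m ∈ J := J.max'_mem hne
      have hmax : ∀ k ∈ J, k ≤ m := fun k hk => J.le_max' k hk
      let J' := J.erase m
      have hJ' : J'.card = n := by
        rw [Finset.card_erase_of_mem hm, hJ]
        rfl
      have hfix := ih J' hJ' ((Finset.erase_subset _ _).trans hJI) (by
        intro k hk j hj hjk
        have hk' := Finset.mem_erase.1 hk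
        refine Finset.mem_erase.2 ⟨?_, hlow k hk'.2 j hj hjk⟩
        exact (hjk.trans_le (hmax k hk'.2)).ne)
      set σ := π ^ p ^ n with hσ
      have hσW : σ ∈ W p I := (W p I).pow_mem hπ _
      have hpow : π ^ p ^ (n + 1) = σ ^ p := by
        rw [hσ, ← pow_mul, pow_succ]
      -- iterates of `σ`
      have hit : ∀ (t : ℕ) (y : ℚ → ZMod p), (∀ k ∈ J', (σ ^ t) y k = y k) ∧
          (σ ^ t) y m = y m + (t : ZMod p) * (σ y m - y m) := by
        intro t
        induction t with
        | zero => intro y; simp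
        | succ t iht =>
          intro y
          obtain ⟨h1, h2⟩ := iht y
          rw [pow_succ', Equiv.Perm.mul_apply]
          refine ⟨fun k hk => by rw [hfix _ k hk, h1 k hk], ?_⟩
          have h3 : σ ((σ ^ t) y) m - (σ ^ t) y m = σ y m - y m := by
            apply hσW.2 m (hJI hm)
            intro j hj hjm
            exact h1 j (Finset.mem_erase.2 ⟨hjm.ne, hlow m hm j hj hjm⟩)
          push_cast
          linear_combination h3 + h2
      intro y k hk
      rw [hpow]
      obtain ⟨h1, h2⟩ := hit p y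
      by_cases hkm : k = m
      · rw [hkm, h2, ZMod.natCast_self, zero_mul, add_zero]
      · exact h1 k (Finset.mem_erase.2 ⟨hkm, hk⟩)
  refine ⟨I.card, ?_⟩
  have h1 := key I.card I rfl le_rfl fun k _ j hj _ => hj
  apply Equiv.ext
  intro y
  funext k
  by_cases hk : k ∈ I
  · exact h1 y k hk
  · have : π ^ p ^ I.card ∈ W p I := (W p I).pow_mem hπ _
    exact this.1 y k hk

/-- Finitely many elements of the wreath power lie in the wreath product over a finite chain. -/
theorem exists_W (p : ℕ) (s : Set (Wr p)) (hs : s.Finite) :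
    ∃ I : Finset ℚ, ∀ π ∈ s, (π : Equiv.Perm (ℚ → ZMod p)) ∈ W p I := by
  classical
  induction s, hs using Set.Finite.induction_on with
  | empty => exact ⟨∅, fun π hπ => absurd hπ (Set.notMem_empty π)⟩
  | @insert a s _ _ ih =>
    obtain ⟨I, hI⟩ := ih
    obtain ⟨J, hJ⟩ := a.2
    refine ⟨I ∪ J, ?_⟩
    intro π hπ
    rcases Set.mem_insert_iff.1 hπ with h | h
    · rw [h]
      exact Tri.mono Finset.subset_union_right hJ
    · exact W_mono Finset.subset_union_left (hI π h)

end Pool.Agent.TH603.Univ
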