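import Mathlib
import Pool.Agent.TH603.Univ.Coord
import Pool.Agent.TH603.Univ.Wr

/-!
# Every countable locally finite p-group embeds in the wreath power over the rationals
-/

set_option autoImplicit false
set_option linter.unusedSectionVars false

namespace Pool.Agent.TH603.Univ

universe u

section

variable {G : Type u} [Group G] {p : ℕ} [hp : Fact p.Prime] {ν : G → ℚ} {θ : G → ZMod p}
  {A : Subgroup G} {x : G → ℚ → ZMod p}

open Classical in
/-- The element of `A` whose coordinates are given by `y`. -/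
noncomputable def sel (hx : Coord p ν θ A x) (y : ℚ → ZMod p) : G :=
  (hx.surj (fun k => if k ∈ L ν A then y k else 0) (by intro k hk; simp [hk])).choose

theorem sel_mem (hx : Coord p ν θ A x) (y : ℚ → ZMod p) : sel hx y ∈ A := by
  classical
  exact (hx.surj (fun k => if k ∈ L ν A then y k else 0) (by intro k hk; simp [hk])).choose_spec.1

theorem x_sel (hx : Coord p ν θ A x) (y : ℚ → ZMod p) {k : ℚ} (hk : k ∈ L ν A) :
    x (sel hx y) k = y k := by
  classical
  have h := (hx.surj (fun k => if k ∈ L ν A then y k else 0) (by intro k hk; simp [hk])).choose_spec.2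
  have := congrFun h k
  simp only [hk, if_true] at this
  exact this

theorem sel_unique (hV : ValOn p (⊤ : Subgroup G) ν θ) (hx : Coord p ν θ A x)
    (y : ℚ → ZMod p) {f : G} (hf : f ∈ A) (h : ∀ k ∈ L ν A, x f k = y k) : f = sel hx y := by
  by_contra hne
  have h1 := hx.P2 f hf _ (sel_mem hx y) hne
  have hne1 : f⁻¹ * sel hx y ≠ 1 := fun h => hne (inv_mul_eq_one.1 h)
  have hk : ν (f⁻¹ * sel hx y) ∈ L ν A := ⟨_, A.mul_mem (A.inv_mem hf) (sel_mem hx y), hne1, rfl⟩
  rw [x_sel hx y hk, h _ hk] at h1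
  exact hV.ne _ trivial hne1 (by linear_combination -h1)

open Classical in
/-- The action of `A` on all functions. -/
noncomputable def act (hx : Coord p ν θ A x) (g : G) (y : ℚ → ZMod p) : ℚ → ZMod p :=
  fun k => if k ∈ L ν A then x (sel hx y * g⁻¹) k else y k

theorem act_of_mem (hx : Coord p ν θ A x) (g : G) (y : ℚ → ZMod p) {k : ℚ} (hk : k ∈ L ν A) :
    act hx g y k = x (sel hx y * g⁻¹) k := by simp [act, hk]

theorem act_of_notMem (hx : Coord p ν θ A x) (g : G) (y : ℚ → ZMod p) {k : ℚ} (hk : k ∉ L ν A) :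
    act hx g y k = y k := by simp [act, hk]

theorem sel_act (hV : ValOn p (⊤ : Subgroup G) ν θ) (hx : Coord p ν θ A x) {g : G} (hg : g ∈ A)
    (y : ℚ → ZMod p) : sel hx (act hx g y) = sel hx y * g⁻¹ := by
  symm
  apply sel_unique hV hx _ (A.mul_mem (sel_mem hx y) (A.inv_mem hg))
  intro k hk
  rw [act_of_mem hx g y hk]

theorem act_one (hx : Coord p ν θ A x) (y : ℚ → ZMod p) : act hx 1 y = y := by
  funext k
  by_cases hk : k ∈ L ν A
  · rw [act_of_mem hx _ _ hk, inv_one, mul_one, x_sel hx y hk]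
  · rw [act_of_notMem hx _ _ hk]

theorem act_mul (hV : ValOn p (⊤ : Subgroup G) ν θ) (hx : Coord p ν θ A x) {g h : G}
    (hh : h ∈ A) (y : ℚ → ZMod p) : act hx (g * h) y = act hx g (act hx h y) := by
  funext k
  by_cases hk : k ∈ L ν A
  · rw [act_of_mem hx _ _ hk, act_of_mem hx _ _ hk, sel_act hV hx hh, mul_inv_rev, mul_assoc]
  · rw [act_of_notMem hx _ _ hk, act_of_notMem hx _ _ hk, act_of_notMem hx _ _ hk]

theorem act_inj (hV : ValOn p (⊤ : Subgroup G) ν θ) (hx : Coord p ν θ A x) {g : G} (hg : g ∈ A)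
    (h : ∀ y, act hx g y = y) : g = 1 := by
  have h1 := sel_act hV hx hg (0 : ℚ → ZMod p)
  rw [h 0] at h1
  have h2 : g⁻¹ = 1 := by
    have := h1.symm
    rwa [mul_eq_left] at this
  exact inv_eq_one.1 h2

theorem act_tri (hV : ValOn p (⊤ : Subgroup G) ν θ) (hx : Coord p ν θ A x) {g : G} (hg : g ∈ A)
    {k : ℚ} (hk : k ∈ L ν A) (y y' : ℚ → ZMod p) (hy : ∀ j ∈ L ν A, j < k → y j = y' j) :
    act hx g y k - y k = act hx g y' k - y' k := by
  rw [act_of_mem hx _ _ hk, act_of_mem hx _ _ hk, ← x_sel hx y hk, ← x_sel hx y' hk]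
  set f := sel hx y with hf
  set f' := sel hx y' with hf'
  by_cases hff : f = f'
  · rw [hff]
  have hfA : f ∈ A := sel_mem hx y
  have hfA' : f' ∈ A := sel_mem hx y'
  have hne1 : f⁻¹ * f' ≠ 1 := fun h => hff (inv_mul_eq_one.1 h)
  have hmL : ν (f⁻¹ * f') ∈ L ν A := ⟨_, A.mul_mem (A.inv_mem hfA) hfA', hne1, rfl⟩
  have hgf : f * g⁻¹ ≠ f' * g⁻¹ := fun h => hff (mul_right_cancel h)
  have he : (f * g⁻¹)⁻¹ * (f' * g⁻¹) = (g⁻¹)⁻¹ * (f⁻¹ * f') * g⁻¹ := by group
  have hν : ν ((f * g⁻¹)⁻¹ * (f' * g⁻¹)) = ν (f⁻¹ * f') := by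
    rw [he, hV.conj_ν _ trivial _ trivial]
  have hθ : θ ((f * g⁻¹)⁻¹ * (f' * g⁻¹)) = θ (f⁻¹ * f') := by
    rw [he, hV.conj_θ _ trivial _ trivial]
  have hgA : f * g⁻¹ ∈ A := A.mul_mem hfA (A.inv_mem hg)
  have hgA' : f' * g⁻¹ ∈ A := A.mul_mem hfA' (A.inv_mem hg)
  have h2 := hx.P2 f hfA f' hfA' hff
  have h2' := hx.P2 _ hgA _ hgA' hgf
  rw [hν, hθ] at h2'
  rcases lt_trichotomy (ν (f⁻¹ * f')) k with h | h | h
  · exfalso
    have h3 := hy _ hmL h
    rw [← x_sel hx y hmL, ← x_sel hx y' hmL, ← hf, ← hf'] at h3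
    rw [← h3] at h2
    exact hV.ne _ trivial hne1 (by linear_combination -h2)
  · rw [← h]
    linear_combination h2 - h2'
  · have h1 := hx.P1 f hfA f' hfA' hff k h
    have h1' := hx.P1 _ hgA _ hgA' hgf k (by rw [hν]; exact h)
    rw [h1, h1']

theorem act_ext (hV : ValOn p (⊤ : Subgroup G) ν θ) (hx : Coord p ν θ A x) {A' : Subgroup G}
    {x' : G → ℚ → ZMod p} (hx' : Coord p ν θ A' x') (hE : Ext ν A x A' x') {g : G} (hg : g ∈ A)
    (y : ℚ → ZMod p) : act hx' g y = act hx g y := by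
  obtain ⟨f, hf, h⟩ := hE.2 _ (sel_mem hx' y)
  have hfs : f = sel hx y := by
    apply sel_unique hV hx y hf
    intro k hk
    have h1 := (h 1 A.one_mem).1 k hk
    rw [mul_one, mul_one, x_sel hx' y (L_mono hE.1 hk)] at h1
    exact h1.symm
  funext k
  by_cases hk : k ∈ L ν A
  · rw [act_of_mem hx _ _ hk, act_of_mem hx' _ _ (L_mono hE.1 hk), ← hfs]
    exact (h _ (A.inv_mem hg)).1 k hk
  · rw [act_of_notMem hx _ _ hk]
    by_cases hk' : k ∈ L ν A'
    · rw [act_of_mem hx' _ _ hk', (h _ (A.inv_mem hg)).2 k hk, x_sel hx' y hk']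
    · rw [act_of_notMem hx' _ _ hk']

theorem finite_L (A : Subgroup G) [Finite A] : (L ν A).Finite := by
  apply Set.Finite.subset ((Set.toFinite (A : Set G)).image ν)
  rintro q ⟨g, hg, -, rfl⟩
  exact ⟨g, hg, rfl⟩

end

/-- Every countable locally finite `p`-group embeds in the wreath power. -/
theorem embed_p (p : ℕ) [hp : Fact p.Prime] (G : Type u) [Group G] [Countable G]
    (hG : LFp p G) : ∃ φ : G →* Wr p, Function.Injective φ := by
  classical
  obtain ⟨ν, θ, hV⟩ := exists_val p G hG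
  obtain ⟨e, he⟩ := exists_surjective_nat G
  let H : ℕ → Subgroup G := fun n => Subgroup.closure (((Finset.range n).image e : Finset G) : Set G)
  have hHf : ∀ n, Finite (H n) := fun n => (hG _).1
  have hHp : ∀ n, IsPGroup p (H n) := fun n => (hG _).2
  have hHmono : Monotone H := by
    intro n m hnm
    apply Subgroup.closure_mono
    intro g hg
    rw [Finset.mem_coe, Finset.mem_image] at hg ⊢
    obtain ⟨i, hi, rfl⟩ := hg
    exact ⟨i, Finset.mem_range.2 ((Finset.mem_range.1 hi).trans_le hnm), rfl⟩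
  have hHmem : ∀ g, ∃ n, g ∈ H n := by
    intro g
    obtain ⟨i, rfl⟩ := he g
    refine ⟨i + 1, Subgroup.subset_closure ?_⟩
    rw [Finset.mem_coe, Finset.mem_image]
    exact ⟨i, Finset.mem_range.2 (Nat.lt_succ_self i), rfl⟩
  have hstep : ∀ (n : ℕ) (x : G → ℚ → ZMod p), Coord p ν θ (H n) x →
      ∃ x', Coord p ν θ (H (n + 1)) x' ∧ Ext ν (H n) x (H (n + 1)) x' := by
    intro n x hx
    have h1 := hHf n
    have h2 := hHf (n + 1)
    obtain ⟨a, ha⟩ := IsPGroup.iff_card.1 (hHp n)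
    obtain ⟨b, hb⟩ := IsPGroup.iff_card.1 (hHp (n + 1))
    have hle := hHmono (Nat.le_succ n)
    have hab : a ≤ b := by
      have h3 : p ^ a ≤ p ^ b := by
        rw [← ha, ← hb]
        exact Nat.card_le_card_of_injective _ (Subgroup.inclusion_injective hle)
      exact (Nat.pow_le_pow_iff_right hp.out.one_lt).1 h3
    exact exists_ext hV (H (n + 1)) (hHp (n + 1)) (b - a) (H n) x hle
      (by rw [ha, hb, ← pow_add]; congr 1; omega) hx
  have hbase : ∃ x, Coord p ν θ (H 0) x := by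
    have : H 0 = ⊥ := by simp [H]
    rw [this]
    exact ⟨_, coord_bot⟩
  choose! nx hnx1 hnx2 using hstep
  obtain ⟨x0, hx0⟩ := hbase
  let X : ℕ → G → ℚ → ZMod p := fun n => Nat.rec x0 (fun n x => nx n x) n
  have hX : ∀ n, Coord p ν θ (H n) (X n) := by
    intro n
    induction n with
    | zero => exact hx0
    | succ n ih => exact hnx1 n _ ih
  have hE : ∀ n m, n ≤ m → Ext ν (H n) (X n) (H m) (X m) := by
    intro n m hnm
    induction m, hnm using Nat.le_induction with
    | base => exact (hX n).ext_refl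
    | succ m _ ih => exact ih.trans (hnx2 m _ (hX m))
  choose N hN using hHmem
  have hcomp : ∀ n g, g ∈ H n → ∀ y, act (hX n) g y = act (hX (N g)) g y := by
    intro n g hg y
    rcases le_total n (N g) with h | h
    · exact (act_ext hV (hX n) (hX (N g)) (hE _ _ h) hg y).symm
    · exact act_ext hV (hX (N g)) (hX n) (hE _ _ h) (hN g) y
  let inst : MulAction G (ℚ → ZMod p) :=
    { smul := fun g y => act (hX (N g)) g y
      one_smul := fun y => act_one _ y
      mul_smul := fun g h y => by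
        change act (hX (N (g * h))) (g * h) y = act (hX (N g)) g (act (hX (N h)) h y)
        have hg : g ∈ H (max (N g) (N h)) := hHmono (le_max_left _ _) (hN g)
        have hh : h ∈ H (max (N g) (N h)) := hHmono (le_max_right _ _) (hN h)
        rw [← hcomp _ _ hg, ← hcomp _ _ hh, ← hcomp _ _ ((H _).mul_mem hg hh),
          act_mul hV (hX _) hh] }
  let ψ : G →* Equiv.Perm (ℚ → ZMod p) := MulAction.toPermHom G (ℚ → ZMod p)
  have hψ : ∀ g y, ψ g y = act (hX (N g)) g y := fun g y => rfl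
  have hrange : ∀ g, ψ g ∈ Wr p := by
    intro g
    have h1 := hHf (N g)
    refine ⟨(finite_L (ν := ν) (H (N g))).toFinset, ?_, ?_⟩
    · intro y k hk
      rw [Set.Finite.mem_toFinset] at hk
      rw [hψ, act_of_notMem _ _ _ hk]
    · intro k hk y y' hy
      rw [Set.Finite.mem_toFinset] at hk
      rw [hψ, hψ]
      apply act_tri hV (hX (N g)) (hN g) hk
      intro j hj hjk
      exact hy j ((Set.Finite.mem_toFinset _).2 hj) hjk
  refine ⟨ψ.codRestrict (Wr p) hrange, ?_⟩
  rw [injective_iff_map_eq_one]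
  intro g hg
  apply act_inj hV (hX (N g)) (hN g)
  intro y
  rw [← hψ]
  have h1 : ψ g = 1 := congrArg Subtype.val hg
  rw [h1]
  rfl

end Pool.Agent.TH603.Univ
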