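import Mathlib
import Pool.Agent.TH603.Univ.Embed

/-!
# Periodic locally nilpotent groups
-/

set_option autoImplicit false

namespace Pool.Agent.TH603.Univ

universe u v

/-- Every finitely generated subgroup is nilpotent. -/
def LNilp (G : Type u) [Group G] : Prop := ∀ H : Subgroup G, H.FG → Group.IsNilpotent H

theorem nilp_of_inj {G : Type u} {K : Type v} [Group G] [Group K] [Group.IsNilpotent K]
    (f : G →* K) (hf : Function.Injective f) : Group.IsNilpotent G :=
  Group.nilpotent_of_mulEquiv (MonoidHom.ofInjective hf).symm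

theorem finite_of_fg_nilp (G : Type u) [Group G] [Group.IsNilpotent G] :
    Group.FG G → (∀ g : G, IsOfFinOrder g) → Finite G := by
  refine Group.nilpotent_center_quotient_ind
    (P := fun G _ _ => Group.FG G → (∀ g : G, IsOfFinOrder g) → Finite G) G ?_ ?_
  · intro G _ _ _ _
    infer_instance
  · intro G _ _ ih hFG htor
    have h1 : Finite (G ⧸ Subgroup.center G) := by
      apply ih
      · exact QuotientGroup.fg _
      · intro x
        obtain ⟨y, rfl⟩ := QuotientGroup.mk'_surjective _ x
        exact MonoidHom.isOfFinOrder _ (htor y)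
    have h2 : (Subgroup.center G).FiniteIndex := Subgroup.finiteIndex_of_finite_quotient
    have h3 : Group.FG (Subgroup.center G) := Subgroup.fg_of_index_ne_zero _
    have h4 : Finite (Subgroup.center G) := by
      let inst : CommGroup (Subgroup.center G) :=
        { (inferInstance : Group (Subgroup.center G)) with
          mul_comm := fun a b => Subtype.ext (Subgroup.mem_center_iff.1 b.2 a) }
      refine @CommGroup.finite_of_fg_isMulTorsion (Subgroup.center G) inst h3 ?_
      intro y
      exact Submonoid.isOfFinOrder_coe.mp (htor (y : G))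
    exact Finite.of_equiv _ (Subgroup.groupEquivQuotientProdSubgroup (s := Subgroup.center G)).symm

theorem not_dvd_orderOf_mul_of_finite {p : ℕ} (hp : p.Prime) (K : Type u) [Group K] [Finite K]
    [hK : Group.IsNilpotent K] (g h : K) (hg : ¬ p ∣ orderOf g) (hh : ¬ p ∣ orderOf h) :
    ¬ p ∣ orderOf (g * h) := by
  intro hdvd
  obtain ⟨e⟩ := (Group.isNilpotent_of_finite_tfae (G := K)).out 0 4 rfl rfl |>.mp hK
  let E := e.symm
  have hfin : ∀ x : K, 0 < orderOf x := fun x => orderOf_pos x
  -- the component at `p` of an element of order prime to `p`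
  have hcomp : ∀ x : K, ¬ p ∣ orderOf x → ∀ (q : (Nat.card K).primeFactors) (P : Sylow q K),
      (q : ℕ) = p → E x q P = 1 := by
    intro x hx q P hq
    have hqp : Fact (Nat.Prime (q : ℕ)) := ⟨Nat.prime_of_mem_primeFactors q.2⟩
    obtain ⟨k, hk⟩ := (IsPGroup.iff_orderOf.1 P.isPGroup') (E x q P)
    let ev : K →* P := ((Pi.evalMonoidHom (fun P : Sylow q K => (P : Subgroup K)) P).comp
      (Pi.evalMonoidHom (fun q : (Nat.card K).primeFactors =>
        ∀ P : Sylow q K, (P : Subgroup K)) q)).comp E.toMonoidHom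
    have h1 : orderOf (E x q P) ∣ orderOf x := orderOf_map_dvd ev x
    rcases Nat.eq_zero_or_pos k with h0 | h0
    · rw [h0, pow_zero] at hk
      exact orderOf_eq_one_iff.1 hk
    · exfalso
      apply hx
      rw [hk, hq] at h1
      exact (dvd_pow_self p h0.ne').trans h1
  set o := orderOf (g * h) with ho
  obtain ⟨m, hm⟩ := hdvd
  have hm0 : m ≠ 0 := by
    rintro rfl
    have := hfin (g * h)
    rw [← ho, hm] at this
    simp at this
  let x := (g * h) ^ m
  have hxo : orderOf x = p := by
    rw [orderOf_pow' _ hm0, ← ho, hm, Nat.gcd_mul_left_left, Nat.mul_div_cancel _ (Nat.pos_of_ne_zero hm0)]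
  have hx1 : x = 1 := by
    apply E.injective
    rw [map_one]
    funext q P
    have hqp : Fact (Nat.Prime (q : ℕ)) := ⟨Nat.prime_of_mem_primeFactors q.2⟩
    by_cases hq : (q : ℕ) = p
    · have h1 : E x = (E g * E h) ^ m := by rw [← map_mul, ← map_pow]
      rw [h1]
      simp only [Pi.pow_apply, Pi.mul_apply, Pi.one_apply]
      rw [hcomp g hg q P hq, hcomp h hh q P hq, one_mul, one_pow]
    · obtain ⟨k, hk⟩ := (IsPGroup.iff_orderOf.1 P.isPGroup') (E x q P)
      let ev : K →* P := ((Pi.evalMonoidHom (fun P : Sylow q K => (P : Subgroup K)) P).comp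
        (Pi.evalMonoidHom (fun q : (Nat.card K).primeFactors =>
          ∀ P : Sylow q K, (P : Subgroup K)) q)).comp E.toMonoidHom
      have h1 : orderOf (E x q P) ∣ orderOf x := orderOf_map_dvd ev x
      rw [hk, hxo] at h1
      have h2 : (q : ℕ) ^ k = 1 := by
        have h3 : Nat.Coprime ((q : ℕ) ^ k) p :=
          Nat.Coprime.pow_left k ((Nat.coprime_primes hqp.out hp).2 hq)
        exact Nat.Coprime.eq_one_of_dvd h3 h1
      rw [h2] at hk
      exact orderOf_eq_one_iff.1 hk
  rw [hx1, orderOf_one] at hxo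
  exact hp.one_lt.ne hxo

theorem not_dvd_orderOf_mul {p : ℕ} (hp : p.Prime) (G : Type u) [Group G]
    (htor : ∀ g : G, IsOfFinOrder g) (hnil : LNilp G) (g h : G) (hg : ¬ p ∣ orderOf g)
    (hh : ¬ p ∣ orderOf h) : ¬ p ∣ orderOf (g * h) := by
  classical
  let K : Subgroup G := Subgroup.closure ((({g, h} : Finset G)) : Set G)
  have hFG : K.FG := ⟨_, rfl⟩
  have hKn : Group.IsNilpotent K := hnil K hFG
  have hKf : Finite K := by
    apply finite_of_fg_nilp
    · exact (Group.fg_iff_subgroup_fg K).2 hFG
    · intro y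
      exact Submonoid.isOfFinOrder_coe.mp (htor (y : G))
  have hgK : g ∈ K := Subgroup.subset_closure (by simp)
  have hhK : h ∈ K := Subgroup.subset_closure (by simp)
  have h1 := not_dvd_orderOf_mul_of_finite hp K ⟨g, hgK⟩ ⟨h, hhK⟩
    (by rw [← Subgroup.orderOf_coe]; exact hg) (by rw [← Subgroup.orderOf_coe]; exact hh)
  rw [← Subgroup.orderOf_coe] at h1
  exact h1

/-- The elements of order prime to `p`. -/
def coprimePart (p : ℕ) (hp : p.Prime) (G : Type u) [Group G]
    (htor : ∀ g : G, IsOfFinOrder g) (hnil : LNilp G) : Subgroup G where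
  carrier := {g | ¬ p ∣ orderOf g}
  one_mem' := by
    change ¬ p ∣ orderOf (1 : G)
    rw [orderOf_one]
    exact fun h => hp.one_lt.ne' (Nat.dvd_one.1 h)
  mul_mem' := fun {g h} hg hh => not_dvd_orderOf_mul hp G htor hnil g h hg hh
  inv_mem' := fun {g} hg => by
    change ¬ p ∣ orderOf g⁻¹
    rw [orderOf_inv]
    exact hg

theorem coprimePart_normal (p : ℕ) (hp : p.Prime) (G : Type u) [Group G]
    (htor : ∀ g : G, IsOfFinOrder g) (hnil : LNilp G) :
    (coprimePart p hp G htor hnil).Normal := by
  constructor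
  intro n hn g
  change ¬ p ∣ orderOf (g * n * g⁻¹)
  have : orderOf (g * n * g⁻¹) = orderOf n := by
    have h1 := MulEquiv.orderOf_eq (MulAut.conj g) n
    rwa [MulAut.conj_apply] at h1
  rw [this]
  exact hn

theorem lfp_quotient (p : ℕ) (hp : p.Prime) (G : Type u) [Group G]
    (htor : ∀ g : G, IsOfFinOrder g) (hnil : LNilp G) (N : Subgroup G) [N.Normal]
    (hN : N = coprimePart p hp G htor hnil) : LFp p (G ⧸ N) := by
  classical
  intro s
  -- lift the generators
  let t : Finset G := s.image Quotient.out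
  let K : Subgroup G := Subgroup.closure (t : Set G)
  have hFG : K.FG := ⟨_, rfl⟩
  have hKn : Group.IsNilpotent K := hnil K hFG
  have hKf : Finite K := by
    apply finite_of_fg_nilp
    · exact (Group.fg_iff_subgroup_fg K).2 hFG
    · intro y
      exact Submonoid.isOfFinOrder_coe.mp (htor (y : G))
  have hmap : Subgroup.closure (s : Set (G ⧸ N)) = K.map (QuotientGroup.mk' N) := by
    rw [MonoidHom.map_closure]
    congr 1
    ext x
    simp only [t, Finset.coe_image, Set.mem_image, Finset.mem_coe]
    constructor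
    · intro hx
      exact ⟨Quotient.out x, ⟨x, hx, rfl⟩, Quotient.out_eq x⟩
    · rintro ⟨_, ⟨y, hy, rfl⟩, rfl⟩
      have : QuotientGroup.mk' N (Quotient.out y) = y := Quotient.out_eq y
      rw [this]
      exact hy
  constructor
  · rw [hmap]
    have : Finite (K.map (QuotientGroup.mk' N) : Set (G ⧸ N)) := by
      rw [Subgroup.coe_map]
      exact (Set.Finite.image _ (Set.toFinite (K : Set G))).to_subtype
    exact this
  · intro x
    obtain ⟨g, hg⟩ := QuotientGroup.mk'_surjective N (x : G ⧸ N)
    have ho : 0 < orderOf g := (htor g).orderOf_pos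
    obtain ⟨k, m, hm, hkm⟩ := Nat.exists_eq_pow_mul_and_not_dvd ho.ne' p hp.ne_one
    refine ⟨k, ?_⟩
    apply Subtype.ext
    rw [Subgroup.coe_pow, ← hg, ← map_pow, Subgroup.coe_one]
    have : g ^ p ^ k ∈ N := by
      rw [hN]
      change ¬ p ∣ orderOf (g ^ p ^ k)
      have h1 : orderOf (g ^ p ^ k) = m := by
        rw [orderOf_pow_of_dvd (pow_ne_zero _ hp.ne_zero) (hkm ▸ dvd_mul_right _ _), hkm,
          Nat.mul_div_cancel_left _ (pow_pos hp.pos k)]
      rw [h1]
      exact hm
    exact (QuotientGroup.eq_one_iff _).2 this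

end Pool.Agent.TH603.Univ
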