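import Mathlib
import Pool.Agent.TH603.Univ.Nil

/-!
# The universal countable periodic locally nilpotent group
-/

set_option autoImplicit false

namespace Pool.Agent.TH603.Univ

universe u v

/-- Only finitely many members of the family `f` are different from `1`. -/
def FinSupp (f : ∀ p : Nat.Primes, Wr p) : Prop := {p | f p ≠ 1}.Finite

theorem finSupp_one : FinSupp 1 := by simp [FinSupp]

theorem finSupp_mul {f g : ∀ p : Nat.Primes, Wr p} (hf : FinSupp f) (hg : FinSupp g) :
    FinSupp (f * g) := by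
  apply (Set.Finite.union hf hg).subset
  intro p hp
  by_contra h
  simp only [Set.mem_union, Set.mem_ofPred_eq, not_or, not_not] at h
  exact hp (by rw [Pi.mul_apply, h.1, h.2, one_mul])

theorem finSupp_inv {f : ∀ p : Nat.Primes, Wr p} (hf : FinSupp f) : FinSupp f⁻¹ := by
  apply Set.Finite.subset hf
  intro p hp h
  exact hp (by rw [Pi.inv_apply, h, inv_one])

/-- The restricted direct product of the wreath powers over all primes. -/
def UN : Subgroup (∀ p : Nat.Primes, Wr p) where
  carrier := {f | FinSupp f}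
  one_mem' := finSupp_one
  mul_mem' := finSupp_mul
  inv_mem' := finSupp_inv

instance (p : Nat.Primes) : Fact (Nat.Prime (p : ℕ)) := ⟨p.2⟩

instance (p : Nat.Primes) : NeZero (p : ℕ) := ⟨p.2.ne_zero⟩

theorem countable_UN : Countable UN := by
  have h : (UN : Set (∀ p : Nat.Primes, Wr p)) ⊆
      ⋃ S : Finset Nat.Primes, {f | ∀ p, p ∉ S → f p = 1} := by
    intro f hf
    refine Set.mem_iUnion.2 ⟨(show {p | f p ≠ 1}.Finite from hf).toFinset, ?_⟩
    intro p hp
    by_contra h
    exact hp ((Set.Finite.mem_toFinset _).2 h)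
  have h2 : (⋃ S : Finset Nat.Primes, {f : ∀ p : Nat.Primes, Wr p | ∀ p, p ∉ S → f p = 1}).Countable := by
    apply Set.countable_iUnion
    intro S
    have hc : ∀ p : S, Countable (Wr (p : Nat.Primes)) := fun p => countable_Wr _
    let F : {f : ∀ p : Nat.Primes, Wr p | ∀ p, p ∉ S → f p = 1} → (∀ p : S, Wr (p : Nat.Primes)) :=
      fun f p => f.1 p
    have hF : Function.Injective F := by
      intro f g hfg
      apply Subtype.ext
      funext p
      by_cases hp : p ∈ S
      · exact congrFun hfg ⟨p, hp⟩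
      · rw [f.2 p hp, g.2 p hp]
    exact (Function.Injective.countable hF).to_set
  exact (h2.mono h).to_subtype

theorem torsion_Wr (p : ℕ) [hp : Fact p.Prime] (π : Wr p) : IsOfFinOrder π := by
  obtain ⟨I, hI⟩ := π.2
  obtain ⟨n, hn⟩ := pow_eq_one p (I := I) hI
  rw [isOfFinOrder_iff_pow_eq_one]
  exact ⟨p ^ n, pow_pos hp.out.pos n, Subtype.ext (by rw [Subgroup.coe_pow]; exact hn)⟩

/-- finitely generated subgroups of the wreath power are finite `p`-groups -/
theorem lfp_Wr (p : ℕ) [hp : Fact p.Prime] : LFp p (Wr p) := by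
  intro s
  obtain ⟨I, hI⟩ := exists_W p (s : Set (Wr p)) s.finite_toSet
  have hle : Subgroup.closure (s : Set (Wr p)) ≤ (W p I).comap (Wr p).subtype := by
    rw [Subgroup.closure_le]
    intro π hπ
    exact hI π hπ
  have hf := finite_W p I
  constructor
  · let F : Subgroup.closure (s : Set (Wr p)) → W p I := fun π => ⟨π.1.1, hle π.2⟩
    apply Finite.of_injective F
    intro a b hab
    exact Subtype.ext (Subtype.ext (congrArg (fun z : W p I => (z : Equiv.Perm (ℚ → ZMod p))) hab))
  · intro π
    obtain ⟨n, hn⟩ := pow_eq_one p (I := I) (hle π.2)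
    exact ⟨n, Subtype.ext (Subtype.ext (by simpa using hn))⟩

theorem torsion_UN (f : UN) : IsOfFinOrder f := by
  classical
  have hfin : {p | f.1 p ≠ 1}.Finite := f.2
  rw [isOfFinOrder_iff_pow_eq_one]
  refine ⟨∏ p ∈ hfin.toFinset, orderOf (f.1 p), ?_, ?_⟩
  · exact Finset.prod_pos fun p _ => (torsion_Wr p (f.1 p)).orderOf_pos
  · apply Subtype.ext
    rw [Subgroup.coe_pow]
    funext p
    rw [Pi.pow_apply]
    by_cases hp : f.1 p = 1
    · rw [hp, one_pow]; rfl
    · have hdvd : orderOf (f.1 p) ∣ ∏ p ∈ hfin.toFinset, orderOf (f.1 p) :=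
        Finset.dvd_prod_of_mem _ ((Set.Finite.mem_toFinset _).2 hp)
      exact orderOf_dvd_iff_pow_eq_one.1 hdvd

theorem lnilp_UN : LNilp UN := by
  classical
  intro H hH
  obtain ⟨T, hT⟩ := hH
  -- the support
  let S : Finset Nat.Primes := T.biUnion fun f => (show {p | f.1 p ≠ 1}.Finite from f.2).toFinset
  have hsupp : ∀ f ∈ H, ∀ p, p ∉ S → f.1 p = 1 := by
    let M : Nat.Primes → Subgroup UN := fun p =>
      ((Pi.evalMonoidHom (fun p : Nat.Primes => Wr p) p).comp UN.subtype).ker
    intro f hf p hp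
    have h1 : H ≤ M p := by
      rw [← hT, Subgroup.closure_le]
      intro t ht
      change t.1 p = 1
      by_contra hne
      exact hp (Finset.mem_biUnion.2 ⟨t, ht, (Set.Finite.mem_toFinset _).2 hne⟩)
    exact h1 hf
  let ev : ∀ p : Nat.Primes, UN →* Wr p := fun p =>
    (Pi.evalMonoidHom (fun p : Nat.Primes => Wr p) p).comp UN.subtype
  have hK : ∀ p : Nat.Primes, Group.IsNilpotent (H.map (ev p)) := by
    intro p
    have h1 : H.map (ev p) = Subgroup.closure ((T.image (ev p) : Finset (Wr p)) : Set (Wr p)) := by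
      rw [← hT, MonoidHom.map_closure, Finset.coe_image]
    rw [h1]
    have h2 := lfp_Wr p (T.image (ev p))
    have h3 := h2.1
    exact h2.2.isNilpotent
  let F : H →* (∀ p : S, H.map (ev p)) :=
    { toFun := fun f p => ⟨ev p f.1, ⟨f.1, f.2, rfl⟩⟩
      map_one' := by
        funext p
        exact Subtype.ext (map_one (ev p))
      map_mul' := by
        intro f g
        funext p
        exact Subtype.ext (map_mul (ev p) f.1 g.1) }
  have hF : Function.Injective F := by
    intro f g hfg
    apply Subtype.ext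
    apply Subtype.ext
    funext p
    by_cases hp : p ∈ S
    · exact congrArg Subtype.val (congrFun hfg ⟨p, hp⟩)
    · rw [hsupp f.1 f.2 p hp, hsupp g.1 g.2 p hp]
  exact nilp_of_inj F hF

/-- Every countable periodic locally nilpotent group embeds in `UN`. -/
theorem embed_UN (G : Type u) [Group G] [Countable G] (htor : ∀ g : G, IsOfFinOrder g)
    (hnil : LNilp G) : ∃ φ : G →* UN, Function.Injective φ := by
  classical
  have hex : ∀ p : Nat.Primes, ∃ φ : G →* Wr p, ∀ g, φ g = 1 ↔ ¬ (p : ℕ) ∣ orderOf g := by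
    intro p
    have hn := coprimePart_normal p p.2 G htor hnil
    have hc : Countable (G ⧸ coprimePart p p.2 G htor hnil) := Quotient.countable
    obtain ⟨ψ, hψ⟩ := embed_p p (G ⧸ coprimePart p p.2 G htor hnil)
      (lfp_quotient p p.2 G htor hnil _ rfl)
    refine ⟨ψ.comp (QuotientGroup.mk' _), fun g => ?_⟩
    rw [MonoidHom.comp_apply, ← map_one ψ, hψ.eq_iff]
    exact QuotientGroup.eq_one_iff g
  choose φ hφ using hex
  let Φ : G →* (∀ p : Nat.Primes, Wr p) := MonoidHom.mk' (fun g p => φ p g) (by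
    intro g h
    funext p
    exact map_mul (φ p) g h)
  have hΦ : ∀ g, Φ g ∈ UN := by
    intro g
    have hfin : {p : Nat.Primes | (p : ℕ) ∣ orderOf g}.Finite := by
      apply Set.Finite.of_finite_image (f := fun p : Nat.Primes => (p : ℕ))
      · apply (Set.finite_Iic (orderOf g)).subset
        rintro _ ⟨p, hp, rfl⟩
        exact Nat.le_of_dvd (htor g).orderOf_pos hp
      · exact (Subtype.val_injective).injOn
    apply hfin.subset
    intro p hp
    by_contra h
    exact hp ((hφ p g).2 h)
  refine ⟨Φ.codRestrict UN hΦ, ?_⟩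
  rw [injective_iff_map_eq_one]
  intro g hg
  have h1 : ∀ p : Nat.Primes, φ p g = 1 := fun p =>
    congrFun (congrArg Subtype.val hg) p
  have h2 : orderOf g = 1 := by
    by_contra hne
    obtain ⟨q, hq, hqd⟩ := Nat.exists_prime_and_dvd hne
    exact (hφ ⟨q, hq⟩ g).1 (h1 ⟨q, hq⟩) hqd
  exact orderOf_eq_one_iff.1 h2

end Pool.Agent.TH603.Univ
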